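import Mathlib
import Pool.Agent.Q60.D3.Defs

/-!
# Abelian varieties with multiplication by an imaginary quadratic field, and the classes generated by
divisors and by Weil classes
-/

namespace Pool.Agent.Q180.WT

open Pool.Agent.H204R3.CM Pool.Agent.Q60.D3

/-- `f` is a Weil class of an imaginary quadratic field `K = ℚ(√-d)` on an abelian variety `Y` of
dimension `2 m` with an elliptic factor `E` with multiplication by `K`: `f ∈ H^(2m)(Y, ℚ)` is a Hodge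
class, `h = √-d` is an endomorphism of `Y` which may be moved in `f` from each variable to each other
variable (so `f` lies in the line `Λ^(2m)_K H¹(Y, ℚ)` over the field `K`), and there is a nonzero
homomorphism `i` from an elliptic curve `E` to `Y` whose image is stable under `h`. -/
def IsWeilClass (m : ℕ) (Y : AV) (f : Y.H [⋀^Fin (2 * m)]→ₗ[ℚ] ℚ) : Prop :=
  Module.finrank ℂ Y.T = 2 * m ∧ IsHodge Y.per f ∧
    ∃ (d : ℕ) (h : Y.H →ₗ[ℚ] Y.H), 0 < d ∧ IsHom Y Y h ∧ (∀ w, h (h w) = -((d : ℚ) • w)) ∧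
      (∀ (v : Fin (2 * m) → Y.H) (k l : Fin (2 * m)),
        f (Function.update v k (h (v k))) = f (Function.update v l (h (v l)))) ∧
      ∃ (E : AV) (ψ : E.H →ₗ[ℚ] E.H) (i : E.H →ₗ[ℚ] Y.H), Module.finrank ℂ E.T = 1 ∧
        IsHom E E ψ ∧ IsHom E Y i ∧ i ≠ 0 ∧ ∀ w, i (ψ w) = h (i w)

/-- The smallest system of cohomology classes `f ∈ H^κ(X, ℚ)` of complex abelian varieties `X`
(alternating forms on `H_1(X, ℚ)` in variables indexed by the finite set `κ`) which contains the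
Hodge classes of degree two and the Weil classes of imaginary quadratic fields on abelian varieties of
the dimensions `2 m`, `m ∈ 𝒟`, with an elliptic factor with multiplication by the same field, and
which is stable under linear combinations, cup products, pull-backs along homomorphisms and
push-forwards along projections `X × Y → X`. -/
inductive Gen (𝒟 : Set ℕ) : (X : AV) → (κ : Type) → (X.H [⋀^κ]→ₗ[ℚ] ℚ) → Prop
  /-- classes of degree zero -/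
  | unit {X : AV} {κ : Type} [IsEmpty κ] (f : X.H [⋀^κ]→ₗ[ℚ] ℚ) : Gen 𝒟 X κ f
  /-- Hodge classes of degree two -/
  | divisor {X : AV} {κ : Type} (hκ : Nat.card κ = 2) (f : X.H [⋀^κ]→ₗ[ℚ] ℚ)
      (hf : IsHodge X.per f) : Gen 𝒟 X κ f
  /-- Weil classes -/
  | weil {Y : AV} {m : ℕ} (hm : m ∈ 𝒟) (f : Y.H [⋀^Fin (2 * m)]→ₗ[ℚ] ℚ)
      (hf : IsWeilClass m Y f) : Gen 𝒟 Y (Fin (2 * m)) f
  | zero (X : AV) (κ : Type) : Gen 𝒟 X κ 0
  | add {X : AV} {κ : Type} (f g : X.H [⋀^κ]→ₗ[ℚ] ℚ) (hf : Gen 𝒟 X κ f) (hg : Gen 𝒟 X κ g) :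
      Gen 𝒟 X κ (f + g)
  | smul {X : AV} {κ : Type} (a : ℚ) (f : X.H [⋀^κ]→ₗ[ℚ] ℚ) (hf : Gen 𝒟 X κ f) :
      Gen 𝒟 X κ (a • f)
  /-- renaming of the variables -/
  | reindex {X : AV} {κ κ' : Type} (e : κ ≃ κ') (f : X.H [⋀^κ]→ₗ[ℚ] ℚ) (hf : Gen 𝒟 X κ f) :
      Gen 𝒟 X κ' (f.domDomCongr e)
  /-- cup products (up to a factor) -/
  | cup {X : AV} {κ κ' : Type} [Fintype κ] [DecidableEq κ] [Fintype κ'] [DecidableEq κ']
      (f : X.H [⋀^κ]→ₗ[ℚ] ℚ) (g : X.H [⋀^κ']→ₗ[ℚ] ℚ) (hf : Gen 𝒟 X κ f) (hg : Gen 𝒟 X κ' g)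
      (h : X.H [⋀^κ ⊕ κ']→ₗ[ℚ] ℚ)
      (hh : ∀ v : κ ⊕ κ' → X.H, h v = ∑ σ : Equiv.Perm (κ ⊕ κ'), ((Equiv.Perm.sign σ : ℤ) : ℚ) *
        (f (fun k => v (σ (Sum.inl k))) * g (fun k => v (σ (Sum.inr k))))) :
      Gen 𝒟 X (κ ⊕ κ') h
  /-- pull-back along a homomorphism -/
  | pull {X Y : AV} {κ : Type} (h : X.H →ₗ[ℚ] Y.H) (hh : IsHom X Y h)
      (f : Y.H [⋀^κ]→ₗ[ℚ] ℚ) (hf : Gen 𝒟 Y κ f) : Gen 𝒟 X κ (f.compLinearMap h)
  /-- push-forward (integration over the fibres) along the projection `X × Y → X`: insert a basis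
  of `H_1(Y, ℚ)` -/
  | push {X Y : AV} {κ κ' : Type} (b : Module.Basis κ' ℚ Y.H)
      (f : (X.prod Y).H [⋀^κ ⊕ κ']→ₗ[ℚ] ℚ) (hf : Gen 𝒟 (X.prod Y) (κ ⊕ κ') f)
      (g : X.H [⋀^κ]→ₗ[ℚ] ℚ)
      (hg : ∀ v : κ → X.H,
        g v = f (Sum.elim (fun k => ((v k, 0) : X.H × Y.H)) (fun k => ((0, b k) : X.H × Y.H)))) :
      Gen 𝒟 X κ g

/-- The endomorphism algebra `End (A) ⊗ ℚ` of the abelian variety `A` is an imaginary quadratic field
`K = ℚ(φ)`, `φ ^ 2 = -d`, which acts on the tangent space (where `φ` becomes `C`) with the signature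
`(p, q)`: the eigenspaces for the two embeddings of `K` have the dimensions `p` and `q`. -/
def HasSignature (A : AV) (p q : ℕ) : Prop :=
  ∃ (d : ℕ) (φ : A.H →ₗ[ℚ] A.H) (C : A.T →ₗ[ℂ] A.T), 0 < d ∧ (∀ w, C (A.per w) = A.per (φ w)) ∧
    (∀ w, φ (φ w) = -((d : ℚ) • w)) ∧
    (∀ h : A.H →ₗ[ℚ] A.H, IsHom A A h → ∃ a b : ℚ, ∀ w, h w = a • w + b • φ w) ∧
    Module.finrank ℂ (LinearMap.ker (C - (((Real.sqrt d : ℝ) : ℂ) * Complex.I) •
      (LinearMap.id : A.T →ₗ[ℂ] A.T))) = p ∧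
    Module.finrank ℂ (LinearMap.ker (C + (((Real.sqrt d : ℝ) : ℂ) * Complex.I) •
      (LinearMap.id : A.T →ₗ[ℂ] A.T))) = q

end Pool.Agent.Q180.WT
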