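import Mathlib
import Pool.Agent.Q60.D3.Stm
import Pool.Agent.Q180.WT.Defs

/-!
# Project WT: statements of the lemma jobs, abstract part

Complex valued forms on the rational homology and the complex span of the generated classes.
(`cx`, `mulF`, `HasWeight`, `conjF`, `chi`, `cxM` are those of project D3.)
-/

namespace Pool.Agent.Q180.WT

open Pool.Agent.H204R3.CM
open Pool.Agent.Q60.D3 (AV IsHom cx mulF HasWeight conjF chi cxM)

/-- The complex span of the generated classes. -/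
noncomputable def GC (𝒟 : Set ℕ) (X : AV) (κ : Type) : Submodule ℂ (X.H [⋀^κ]→ₗ[ℚ] ℂ) :=
  Submodule.span ℂ {F | ∃ f, Gen 𝒟 X κ f ∧ F = cx f}

/-- The alternation of the complex valued form `F` is in the complex span of the generated
classes. -/
def Good (𝒟 : Set ℕ) (X : AV) (κ : Type) [Fintype κ] [DecidableEq κ]
    (F : MultilinearMap ℚ (fun _ : κ => X.H) ℂ) : Prop :=
  MultilinearMap.alternatization F ∈ GC 𝒟 X κ

/-- Data of an abelian variety `A` of dimension `n` with an endomorphism `φ`, `φ ^ 2 = -d` with `d`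
squarefree, and a determinant form `δ` on the eigenspace of `φ` for the eigenvalue `μ`, of weight
`s`. -/
structure KO (A : AV) (n : ℕ) where
  dimA : Module.finrank ℂ A.T = n
  φ : A.H →ₗ[ℚ] A.H
  hφ : IsHom A A φ
  d : ℕ
  hd : Squarefree d
  sq : ∀ w, φ (φ w) = -((d : ℚ) • w)
  δ : A.H [⋀^Fin n]→ₗ[ℚ] ℂ
  μ : ℂ
  hμ : μ * μ = -(d : ℂ)
  eig : ∀ (v : Fin n → A.H) (k : Fin n), δ (Function.update v k (φ (v k))) = μ * δ v
  s : ℤ
  hs : n = 1 → s = 1 ∨ s = -1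
  wt : HasWeight A.per δ.toMultilinearMap s

/-- The endomorphism `φ` of `Y` has an elliptic curve in `Y` stable under it. -/
def HasEll (Y : AV) (φ : Y.H →ₗ[ℚ] Y.H) : Prop :=
  ∃ (E : AV) (ψ : E.H →ₗ[ℚ] E.H) (i : E.H →ₗ[ℚ] Y.H), Module.finrank ℂ E.T = 1 ∧
    IsHom E E ψ ∧ IsHom E Y i ∧ i ≠ 0 ∧ ∀ w, i (ψ w) = φ (i w)

/-- The data of a monomial on `X`: determinant forms composed with homomorphisms from `X`, and
rational bilinear Hodge forms on `X`. -/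
structure Mon (𝒟 : Set ℕ) (X : AV) (κ : Type) where
  /-- the number of the determinants -/
  m : ℕ
  n : Fin m → ℕ
  A : Fin m → AV
  D : ∀ j, KO (A j) (n j)
  hD : ∀ j, n j ≠ 1 → (D j).s ≠ 0 ∧ ∃ r ∈ 𝒟, n j + (D j).s.natAbs = 2 * r
  h : ∀ (j : Fin m), Fin (n j) → (X.H →ₗ[ℚ] (A j).H)
  hh : ∀ (j : Fin m) (k : Fin (n j)), IsHom X (A j) (h j k)
  /-- the number of the bilinear forms -/
  p : ℕ
  β : Fin p → MultilinearMap ℚ (fun _ : Fin 2 => X.H) ℚ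
  hβ : ∀ q, HasWeight X.per (cxM (β q)) 0
  e : (Σ j : Fin m, Fin (n j)) ⊕ (Fin p × Fin 2) ≃ κ

/-- The value of the monomial. -/
noncomputable def Mon.val {𝒟 : Set ℕ} {X : AV} {κ : Type} (M : Mon 𝒟 X κ) (v : κ → X.H) : ℂ :=
  (∏ j, (M.D j).δ fun k => M.h j k (v (M.e (Sum.inl ⟨j, k⟩)))) *
    ∏ q, ((M.β q fun a => v (M.e (Sum.inr (q, a))) : ℚ) : ℂ)

/-- The monomial is balanced: for each `d` the determinants with `φ ^ 2 = -d` have total weight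
zero. -/
def Mon.Balanced {𝒟 : Set ℕ} {X : AV} {κ : Type} (M : Mon 𝒟 X κ) : Prop :=
  ∀ d : ℕ, ∑ j, (if (M.D j).d = d then (M.D j).s else 0) = 0

/-! ## The jobs -/

/-- JOB GEN1. -/
def S_desc : Prop :=
  ∀ (𝒟 : Set ℕ) (X : AV) (κ : Type) (f : X.H [⋀^κ]→ₗ[ℚ] ℚ), cx f ∈ GC 𝒟 X κ → Gen 𝒟 X κ f

/-- JOB GEN1. Alternating forms. -/
def S_good_alt : Prop :=
  ∀ (𝒟 : Set ℕ) (X : AV) (κ : Type) [Fintype κ] [DecidableEq κ] (F : X.H [⋀^κ]→ₗ[ℚ] ℂ),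
    Good 𝒟 X κ F.toMultilinearMap ↔ F ∈ GC 𝒟 X κ

/-- JOB GEN1. Linear combinations. -/
def S_good_lin : Prop :=
  ∀ (𝒟 : Set ℕ) (X : AV) (κ : Type) [Fintype κ] [DecidableEq κ],
    (∀ F G : MultilinearMap ℚ (fun _ : κ => X.H) ℂ, Good 𝒟 X κ F → Good 𝒟 X κ G →
      Good 𝒟 X κ (F + G)) ∧
    (∀ (c : ℂ) (F : MultilinearMap ℚ (fun _ : κ => X.H) ℂ), Good 𝒟 X κ F → Good 𝒟 X κ (c • F)) ∧
    Good 𝒟 X κ 0

/-- JOB GEN1. Renaming of the variables. -/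
def S_good_reindex : Prop :=
  ∀ (𝒟 : Set ℕ) (X : AV) (κ κ' : Type) [Fintype κ] [DecidableEq κ] [Fintype κ'] [DecidableEq κ']
    (e : κ ≃ κ') (F : MultilinearMap ℚ (fun _ : κ => X.H) ℂ), Good 𝒟 X κ F →
      Good 𝒟 X κ' (F.domDomCongr e)

/-- JOB GEN1. Products. -/
def S_good_mul : Prop :=
  ∀ (𝒟 : Set ℕ) (X : AV) (κ κ' : Type) [Fintype κ] [DecidableEq κ] [Fintype κ'] [DecidableEq κ']
    (F : MultilinearMap ℚ (fun _ : κ => X.H) ℂ) (G : MultilinearMap ℚ (fun _ : κ' => X.H) ℂ),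
    Good 𝒟 X κ F → Good 𝒟 X κ' G → Good 𝒟 X (κ ⊕ κ') (mulF F G)

/-- JOB GEN1. Pull-backs. -/
def S_good_pull : Prop :=
  ∀ (𝒟 : Set ℕ) (X Y : AV) (κ : Type) [Fintype κ] [DecidableEq κ] (h : X.H →ₗ[ℚ] Y.H),
    IsHom X Y h → ∀ F : MultilinearMap ℚ (fun _ : κ => Y.H) ℂ, Good 𝒟 Y κ F →
      Good 𝒟 X κ (F.compLinearMap fun _ => h)

/-- JOB INS. Contraction over an abelian variety `Y`: if `F(x) η(w)` and `G(x) η'(w)` are good on
`X × Y`, and the product of `η` and `η'` is a nonzero form of the top degree, then `F G` is good on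
`X` (cup product and push-forward along `X × Y → X`). -/
def S_ins : Prop :=
  ∀ (𝒟 : Set ℕ) (X Y : AV) (κ κ' : Type) [Fintype κ] [DecidableEq κ] [Fintype κ']
    [DecidableEq κ'] (k k' : ℕ)
    (b : Module.Basis (Fin k ⊕ Fin k') ℚ Y.H) (η : Y.H [⋀^Fin k]→ₗ[ℚ] ℂ)
    (η' : Y.H [⋀^Fin k']→ₗ[ℚ] ℂ),
    (∑ σ : Equiv.Perm (Fin k ⊕ Fin k'), ((Equiv.Perm.sign σ : ℤ) : ℂ) *
      (η (fun a => b (σ (Sum.inl a))) * η' (fun a => b (σ (Sum.inr a))))) ≠ 0 →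
    ∀ (F : MultilinearMap ℚ (fun _ : κ => X.H) ℂ) (G : MultilinearMap ℚ (fun _ : κ' => X.H) ℂ)
      (F' : MultilinearMap ℚ (fun _ : κ ⊕ Fin k => (X.prod Y).H) ℂ)
      (G' : MultilinearMap ℚ (fun _ : κ' ⊕ Fin k' => (X.prod Y).H) ℂ),
    (∀ v : κ ⊕ Fin k → X.H × Y.H,
      F' v = F (fun a => (v (Sum.inl a)).1) * η (fun a => (v (Sum.inr a)).2)) →
    (∀ v : κ' ⊕ Fin k' → X.H × Y.H,
      G' v = G (fun a => (v (Sum.inl a)).1) * η' (fun a => (v (Sum.inr a)).2)) →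
    Good 𝒟 (X.prod Y) (κ ⊕ Fin k) F' → Good 𝒟 (X.prod Y) (κ' ⊕ Fin k') G' →
    Good 𝒟 X (κ ⊕ κ') (mulF F G)

/-- JOB POL (polarization). If `δ(a) η(w)` is good on `A × Y` then so is
`δ(h_0 x_0, ..., h_(n-1) x_(n-1)) η(w)` on `X × Y`, for homomorphisms `h_k : X → A`. -/
def S_pol : Prop :=
  ∀ (𝒟 : Set ℕ) (X A Y : AV) (n k : ℕ) (δ : A.H [⋀^Fin n]→ₗ[ℚ] ℂ) (η : Y.H [⋀^Fin k]→ₗ[ℚ] ℂ)
    (G : MultilinearMap ℚ (fun _ : Fin n ⊕ Fin k => (A.prod Y).H) ℂ),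
    (∀ v : Fin n ⊕ Fin k → A.H × Y.H,
      G v = δ (fun a => (v (Sum.inl a)).1) * η (fun a => (v (Sum.inr a)).2)) →
    Good 𝒟 (A.prod Y) (Fin n ⊕ Fin k) G →
    ∀ h : Fin n → (X.H →ₗ[ℚ] A.H), (∀ a, IsHom X A (h a)) →
    ∀ G' : MultilinearMap ℚ (fun _ : Fin n ⊕ Fin k => (X.prod Y).H) ℂ,
    (∀ v : Fin n ⊕ Fin k → X.H × Y.H,
      G' v = δ (fun a => h a (v (Sum.inl a)).1) * η (fun a => (v (Sum.inr a)).2)) →
    Good 𝒟 (X.prod Y) (Fin n ⊕ Fin k) G'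

/-- JOB WT. The weights of the conjugates of a determinant form. -/
def S_wt : Prop :=
  ∀ (A : AV) (n : ℕ) (K : KO A n) (σ : ℂ ≃+* ℂ),
    HasWeight A.per (conjF σ K.δ.toMultilinearMap) (K.s * chi K.μ σ)

/-- JOB WEIL. The form `δ(x) η(w)` on `A × Y` with opposite weights and the same eigenvalue is
good. -/
def S_weil : Prop :=
  ∀ (𝒟 : Set ℕ) (A Y : AV) (n k : ℕ) (K : KO A n) (L : KO Y k), L.d = K.d → L.μ = K.μ →
    L.s = -K.s → (∃ r ∈ 𝒟, n + k = 2 * r) → HasEll Y L.φ →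
    ∀ G : MultilinearMap ℚ (fun _ : Fin n ⊕ Fin k => (A.prod Y).H) ℂ,
    (∀ v : Fin n ⊕ Fin k → A.H × Y.H,
      G v = K.δ (fun a => (v (Sum.inl a)).1) * L.δ (fun a => (v (Sum.inr a)).2)) →
    Good 𝒟 (A.prod Y) (Fin n ⊕ Fin k) G

/-- JOB POW. For each squarefree `d`, each root `μ` of `-d` and each `k > 0` there is an abelian
variety `Y` (the power `E^k` of an elliptic curve with multiplication by `√-d`) with determinant
forms `L.δ`, `L'.δ` of the weights `k` and `-k`, which are determinants of the coordinates of forms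
of the weights `1` and `-1` on the elliptic curve, and whose product is a nonzero form of the top
degree. -/
def S_pow : Prop :=
  ∀ (d : ℕ) (_ : Squarefree d) (μ : ℂ) (_ : μ * μ = -(d : ℂ)) (k : ℕ) (_ : 0 < k),
    ∃ (E : AV) (K K' : KO E 1) (Y : AV) (pr : Fin k → (Y.H →ₗ[ℚ] E.H)) (L L' : KO Y k)
      (b : Module.Basis (Fin k ⊕ Fin k) ℚ Y.H), (∀ a, IsHom Y E (pr a)) ∧
      K.d = d ∧ K'.d = d ∧ K.μ = μ ∧ K'.μ = μ ∧ K.s = 1 ∧ K'.s = -1 ∧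
      L.d = d ∧ L'.d = d ∧ L.μ = μ ∧ L'.μ = μ ∧ L.s = k ∧ L'.s = -k ∧
      (∀ y : Fin k → Y.H, L.δ y = (Matrix.of fun a c : Fin k => K.δ fun _ => pr c (y a)).det) ∧
      (∀ y : Fin k → Y.H, L'.δ y = (Matrix.of fun a c : Fin k => K'.δ fun _ => pr c (y a)).det) ∧
      HasEll Y L.φ ∧ HasEll Y L'.φ ∧
      (∑ σ : Equiv.Perm (Fin k ⊕ Fin k), ((Equiv.Perm.sign σ : ℤ) : ℂ) *
        (L.δ (fun a => b (σ (Sum.inl a))) * L'.δ (fun a => b (σ (Sum.inr a))))) ≠ 0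

/-- JOB BAL. The balanced monomials are good. -/
def S_bal : Prop :=
  ∀ (𝒟 : Set ℕ) (X : AV) (κ : Type) [Fintype κ] [DecidableEq κ] (M : Mon 𝒟 X κ), M.Balanced →
    ∀ F : MultilinearMap ℚ (fun _ : κ => X.H) ℂ, (∀ v, F v = M.val v) → Good 𝒟 X κ F

/-- JOB CONV. The generated classes are Hodge classes. -/
def S_conv : Prop :=
  ∀ (𝒟 : Set ℕ) (X : AV) (κ : Type) (f : X.H [⋀^κ]→ₗ[ℚ] ℚ), Gen 𝒟 X κ f → Finite κ →
    IsHodge X.per f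

end Pool.Agent.Q180.WT
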