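import Mathlib
import Pool.Agent.Q60.D3.Stm2
import Pool.Agent.Q60.D3.HomZ
import Pool.Agent.Y4.K.MainK
import Pool.Agent.Q180.WT.StmA

/-!
# Project WT: statements of the lemma jobs, Lie algebra part
-/

namespace Pool.Agent.Q180.WT

open Matrix Module Pool.Agent.H204R3.CM Pool.Agent.H204R3.SP Pool.Agent.W437.HC
  Pool.Agent.W437.HD Pool.Agent.W437.HP
open Pool.Agent.Q60.D3 (AV IsHom cx mulF HasWeight conjF chi cxM ofZ Comm)
open Pool.Agent.Y4.K (Pol Pr mu Eqv Iso)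
open Pool.Agent.Y4.H (LZ Ct)
open Pool.Agent.Q59.GC (Labels Letter)

/-! ## General period matrices -/

/-- JOB MEMTR. Variant of `Pol.mem_LA` without the nondegeneracy condition: the Lie algebra contains
all elements of the symplectic Lie algebra which commute with the commutant and have the trace zero
at all places. (Proof: as `Pol.mem_LA`; the difference `c` of `N` and its projection to `LZ Z` is
scalar at all places by `Pol.scalar_place`; its adjoint `dag Z c` is also scalar at all places, so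
`trace (dag c * N) = 0`, and `trace (dag c * N1) = 0` because `dag c` is orthogonal to the Lie
algebra, too; hence `trace (dag c * c) = 0` and `c = 0`.) -/
def S_memtr : Prop :=
  ∀ (g : ℕ) (Z : Matrix (Fin g) (Fin g) ℂ) (M : Pol Z), M.Cop → M.Sep →
    ∀ N : Matrix (Fin g ⊕ Fin g) (Fin g ⊕ Fin g) ℂ, (∀ d, Ct Z d → N * d = d * N) →
      Nᵀ * Om g ℂ + Om g ℂ * N = 0 → (∀ φ : Pr Z, trace (N * φ.e) = 0) → N ∈ LZ Z

/-- JOB TOR. The Lie algebra contains the scalar parts of the conjugates of the Hodge operator.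
(`c = ∑ i, w i • (ε i).e` for a family `ε` as in `Pol.exists_family`; `Dσ - c` satisfies the
hypotheses of MEMTR.) -/
def S_tor : Prop :=
  ∀ (g : ℕ) (Z : Matrix (Fin g) (Fin g) ℂ) (M : Pol Z), M.Cop → M.Sep → ∀ σ : ℂ ≃+* ℂ,
    ∃ X ∈ LZ Z, ∀ φ : Pr Z,
      X * φ.e = (trace ((DZ Z).map (σ : ℂ →+* ℂ) * φ.e) / trace φ.e) • φ.e

/-- JOB LAB. Letters with an involution can be numbered as the letters of labels. -/
def S_lab : Prop :=
  ∀ (P R : Type) [Fintype P] [DecidableEq P] [Fintype R] [DecidableEq R] (cls : R → P)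
    (inv : R → R) (b : P → P), (∀ p, b (b p) = p) → (∀ x, inv (inv x) = x) → (∀ x, inv x ≠ x) →
    (∀ x, cls (inv x) = b (cls x)) → (∀ p, b p = p → Fintype.card {x // cls x = p} = 2) →
    ∃ (Λ : Labels 3 P) (η : R ≃ Letter Λ), (∀ p, Λ.orth p = false) ∧ (∀ p, Λ.star p = b p) ∧
      (∀ x, (η x).1 = cls x) ∧ ∀ x, Pool.Agent.Q59.GC.dual (η x) = η (inv x)

/-- JOB EXPW. The expansion of a Hodge tensor if all places are coprime and separated: products of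
determinants at places which are not selfconjugate and of bilinear forms killed by all conjugates of
the Hodge operator. (Proof: as `Pol.divisorial_of_mem`, but with `Pool.Agent.Q180.D3.exp_mem`, that
is `S_exp`, in the place of `mem_MS_of_copies`.) -/
def S_expw : Prop :=
  ∀ (g : ℕ) (Z : Matrix (Fin g) (Fin g) ℂ) (M : Pol Z), M.Cop → M.Sep →
  ∀ (κ : Type) [Fintype κ] [DecidableEq κ] (c : (κ → Fin g ⊕ Fin g) → ℚ), IsH (DZ Z) c →
    cst ℂ c ∈ Submodule.span ℂ {F : (κ → Fin g ⊕ Fin g) → ℂ |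
      ∃ (l p : ℕ) (φ : Fin l → Pr Z) (n : Fin l → ℕ)
        (Q : ∀ j, Matrix (Fin (n j)) (Fin g ⊕ Fin g) ℂ)
        (V : ∀ j, Matrix (Fin g ⊕ Fin g) (Fin (n j)) ℂ)
        (e : (Σ j : Fin l, Fin (n j)) ⊕ (Fin p × Fin 2) ≃ κ)
        (C : ∀ j, Fin (n j) → Matrix (Fin g ⊕ Fin g) (Fin g ⊕ Fin g) ℂ)
        (G : Fin p → Matrix (Fin g ⊕ Fin g) (Fin g ⊕ Fin g) ℂ),
        (∀ j, Q j * V j = 1) ∧ (∀ j, V j * Q j = (φ j).e) ∧
        (∀ j, ¬ Eqv (φ j) (M.bar (φ j))) ∧ (∀ j a, Ct Z (C j a)) ∧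
        (∀ s (σ : ℂ ≃+* ℂ), ((DZ Z).map σ)ᵀ * G s + G s * (DZ Z).map σ = 0) ∧
        (∀ σ : ℂ ≃+* ℂ, ∑ j, trace ((DZ Z).map (σ : ℂ →+* ℂ) * (φ j).e) = 0) ∧
        F = fun w => (∏ j, (Matrix.of fun a b : Fin (n j) =>
            (Q j * C j a) b (w (e (Sum.inl ⟨j, a⟩)))).det) *
          ∏ s, G s (w (e (Sum.inr (s, 0)))) (w (e (Sum.inr (s, 1))))}

/-! ## Products of simple abelian varieties -/

/-- Data of an abelian variety whose endomorphism algebra is an imaginary quadratic field, generated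
by `φ`, `φ ^ 2 = -d`: a basis `u` of the eigenspace of `μ` and the dual basis `v` of the eigenspace
of `-μ`, consisting of eigenvectors of the Hodge operator for the eigenvalues `ep k = ± 1` and
`- ep k`. -/
structure UZ {g : ℕ} (Z : Matrix (Fin g) (Fin g) ℂ) where
  φ : Matrix (Fin g ⊕ Fin g) (Fin g ⊕ Fin g) ℚ
  d : ℕ
  hd : Squarefree d
  sq : φ * φ = -((d : ℚ) • (1 : Matrix (Fin g ⊕ Fin g) (Fin g ⊕ Fin g) ℚ))
  com : cK ℂ φ * DZ Z = DZ Z * cK ℂ φ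
  skew : φᵀ * Om g ℚ = -(Om g ℚ * φ)
  gen : ∀ ψ : Matrix (Fin g ⊕ Fin g) (Fin g ⊕ Fin g) ℚ, cK ℂ ψ * DZ Z = DZ Z * cK ℂ ψ →
    ∃ a b : ℚ, ψ = a • (1 : Matrix (Fin g ⊕ Fin g) (Fin g ⊕ Fin g) ℚ) + b • φ
  μ : ℂ
  hμ : μ * μ = -(d : ℂ)
  u : Fin g → Fin g ⊕ Fin g → ℂ
  v : Fin g → Fin g ⊕ Fin g → ℂ
  hu : ∀ k, cK ℂ φ *ᵥ u k = μ • u k
  hv : ∀ k, cK ℂ φ *ᵥ v k = (-μ) • v k
  dual : ∀ k l, u k ⬝ᵥ (Om g ℂ *ᵥ v l) = if k = l then 1 else 0
  ep : Fin g → ℤ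
  hep : ∀ k, ep k = 1 ∨ ep k = -1
  hDu : ∀ k, DZ Z *ᵥ u k = ((ep k : ℤ) : ℂ) • u k
  hDv : ∀ k, DZ Z *ᵥ v k = (-((ep k : ℤ) : ℂ)) • v k

/-- The multiplicities of the signature. -/
def UZ.pos {g : ℕ} {Z : Matrix (Fin g) (Fin g) ℂ} (K : UZ Z) : ℕ :=
  (Finset.univ.filter fun k => K.ep k = 1).card

/-- The multiplicities of the signature. -/
def UZ.neg {g : ℕ} {Z : Matrix (Fin g) (Fin g) ℂ} (K : UZ Z) : ℕ :=
  (Finset.univ.filter fun k => K.ep k = -1).card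

/-- The matrix of the coordinates with respect to the basis `u` of the eigenspace of `μ` (for `true`)
or with respect to the basis `v` of the eigenspace of `-μ` (for `false`). -/
noncomputable def UZ.cm {g : ℕ} {Z : Matrix (Fin g) (Fin g) ℂ} (K : UZ Z) (β : Bool) :
    Matrix (Fin g) (Fin g ⊕ Fin g) ℂ :=
  match β with
  | true => Matrix.of fun c s => (Pi.single s 1 : Fin g ⊕ Fin g → ℂ) ⬝ᵥ (Om g ℂ *ᵥ K.v c)
  | false => Matrix.of fun c s => K.u c ⬝ᵥ (Om g ℂ *ᵥ (Pi.single s 1 : Fin g ⊕ Fin g → ℂ))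

/-- The matrix with the columns `u k` (for `true`) or `v k` (for `false`). -/
noncomputable def UZ.bm {g : ℕ} {Z : Matrix (Fin g) (Fin g) ℂ} (K : UZ Z) (β : Bool) :
    Matrix (Fin g ⊕ Fin g) (Fin g) ℂ :=
  match β with
  | true => Matrix.of fun s c => K.u c s
  | false => Matrix.of fun s c => K.v c s

/-- The sign. -/
def sgb (β : Bool) : ℤ := if β then 1 else -1

/-- The total weight of the determinant form on the eigenspace of `μ`. -/
def UZ.sum {g : ℕ} {Z : Matrix (Fin g) (Fin g) ℂ} (K : UZ Z) : ℤ := ∑ k, K.ep k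

/-- JOB UZA. The bases are dual bases and resolve the identity; the endomorphism acts on the
coordinates by the scalars `± μ`, the Hodge operator by the signs. -/
def S_uza : Prop :=
  ∀ (g : ℕ) (Z : Matrix (Fin g) (Fin g) ℂ) (_ : Zᵀ = Z) (_ : (imM Z).PosDef) (K : UZ Z),
    (∀ β, K.cm β * K.bm β = 1) ∧ (∀ β, K.cm β * K.bm (!β) = 0) ∧
    (∑ β : Bool, K.bm β * K.cm β = 1) ∧
    (∀ β, K.cm β * cK ℂ K.φ = ((sgb β : ℂ) * K.μ) • K.cm β) ∧
    (∀ β, cK ℂ K.φ * K.bm β = ((sgb β : ℂ) * K.μ) • K.bm β) ∧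
    (∀ β, K.cm β * DZ Z = Matrix.diagonal (fun c => (sgb β : ℂ) * ((K.ep c : ℤ) : ℂ)) * K.cm β) ∧
    (K.sum = (K.pos : ℤ) - (K.neg : ℤ)) ∧ K.pos + K.neg = g

/-- JOB TRZ. The trace of the conjugates of the Hodge operator on the eigenspaces. -/
def S_trz : Prop :=
  ∀ (g : ℕ) (Z : Matrix (Fin g) (Fin g) ℂ) (_ : Zᵀ = Z) (_ : (imM Z).PosDef) (K : UZ Z)
    (β : Bool) (σ : ℂ ≃+* ℂ),
    trace ((DZ Z).map (σ : ℂ →+* ℂ) * (K.bm β * K.cm β)) =
      ((sgb β * K.sum * chi K.μ σ : ℤ) : ℂ)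

/-- JOB KON. The determinant forms. -/
def S_kon : Prop :=
  ∀ (g : ℕ) (Z : Matrix (Fin g) (Fin g) ℂ) (hZ : Zᵀ = Z) (hpos : (imM Z).PosDef) (K : UZ Z)
    (β : Bool), ∃ L : KO (ofZ Z hZ hpos) g, L.d = K.d ∧ L.μ = (sgb β : ℂ) * K.μ ∧
      L.s = sgb β * K.sum ∧ ∀ x : Fin g → Fin g ⊕ Fin g → ℚ, L.δ x =
        (Matrix.of fun a b : Fin g => (K.cm β *ᵥ fun i => ((x a i : ℚ) : ℂ)) b).det

/-- JOB UZX. An abelian variety whose endomorphism algebra is an imaginary quadratic field has such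
data. (The Rosati involution maps `φ` to `-φ` because it is positive.) -/
def S_uzx : Prop :=
  ∀ (A : AV) (g : ℕ) (Z : Matrix (Fin g) (Fin g) ℂ) (e : A.H ≃ₗ[ℚ] (Fin g ⊕ Fin g → ℚ))
    (C : A.T ≃ₗ[ℂ] (Fin g → ℂ)), Zᵀ = Z → (imM Z).PosDef →
    (∀ w, C (A.per w) = perOne Z (e w)) → ∀ p q : ℕ, HasSignature A p q →
    ∃ K : UZ Z, K.pos = p ∧ K.neg = q

/-- JOB UZ1. Elliptic curves with complex multiplication. -/
def S_uz1 : Prop :=
  ∀ Z : Matrix (Fin 1) (Fin 1) ℂ, (imM Z).PosDef → Comm Z → ∃ K : UZ Z, K.pos = 1 ∧ K.neg = 0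

/-- The matrix of the projection to the block `i` of a product. -/
noncomputable abbrev PB {ι : Type} [Fintype ι] [DecidableEq ι] {g : ι → ℕ}
    (Z : ∀ i, Matrix (Fin (g i)) (Fin (g i)) ℂ) (hZ : ∀ i, (Z i)ᵀ = Z i)
    (hpos : ∀ i, (imM (Z i)).PosDef) (i : ι) :
    Matrix (Fin (g i) ⊕ Fin (g i)) (Fin (NB g) ⊕ Fin (NB g)) ℂ :=
  cK ℂ ((Pool.Agent.W437.HP.blocksOf Z hZ hpos).P i)

/-- JOB ALN (alignment). For a product of abelian varieties with such data (with coprime signature)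
and of elliptic curves without complex multiplication all places are coprime and separated, and the
places which are not selfconjugate are isomorphic to the eigenspaces of the factors with such data.
(The matrices `(PB i)ᵀ * (K.bm β * K.cm β) * PB i` and, for the elliptic curves without complex
multiplication, `(PB i)ᵀ * PB i`, are primitive idempotents with sum one; each primitive idempotent
is equivalent to one of them by `Pol.eqv_family`; `mu` of the first is `K.pos` or `K.neg`; so `mu φ`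
and `mu (M.bar φ)` are coprime for all `φ`, which implies `M.Cop` and `M.Sep`.) -/
def S_aln : Prop :=
  ∀ (ι : Type) [Fintype ι] [DecidableEq ι] (g : ι → ℕ)
    (Z : ∀ i, Matrix (Fin (g i)) (Fin (g i)) ℂ) (hZ : ∀ i, (Z i)ᵀ = Z i)
    (hpos : ∀ i, (imM (Z i)).PosDef) (Ok : ∀ i, UZ (Z i) → Prop),
    (∀ i K, Ok i K → Nat.Coprime K.pos K.neg) →
    (∀ i, (∃ K, Ok i K) ∨ (g i = 1 ∧ ¬ Comm (Z i))) → ∀ M : Pol (bigD ℂ Z),
    M.Cop ∧ M.Sep ∧ ∀ φ : Pr (bigD ℂ Z), ¬ Eqv φ (M.bar φ) →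
      ∃ (i : ι) (K : UZ (Z i)) (β : Bool)
        (a c : Matrix (Fin (NB g) ⊕ Fin (NB g)) (Fin (NB g) ⊕ Fin (NB g)) ℂ), Ok i K ∧
        Ct (bigD ℂ Z) a ∧ Ct (bigD ℂ Z) c ∧ c * a = φ.e ∧
        a * c = (PB Z hZ hpos i)ᵀ * (K.bm β * K.cm β) * PB Z hZ hpos i

end Pool.Agent.Q180.WT
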