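import Mathlib
import Pool.Agent.Q180.WT.StmB

/-!
# Multilinear forms with given coefficients, products of multilinear forms
-/

set_option linter.unusedSectionVars false
set_option linter.unusedVariables false

namespace Pool.Agent.Q180.WT

open Matrix Module

section theta

variable {B κ V : Type} [Fintype B] [DecidableEq B] [Fintype κ] [DecidableEq κ] [AddCommGroup V]
  [Module ℚ V]

/-- The multilinear form with the coefficients `F`. -/
noncomputable def theta (a : V →ₗ[ℚ] (B → ℚ)) (F : (κ → B) → ℂ) :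
    MultilinearMap ℚ (fun _ : κ => V) ℂ :=
  ∑ w : κ → B, F w • (Algebra.linearMap ℚ ℂ).compMultilinearMap
    ((MultilinearMap.mkPiAlgebra ℚ κ ℚ).compLinearMap fun k => LinearMap.proj (w k) ∘ₗ a)

theorem theta_apply (a : V →ₗ[ℚ] (B → ℚ)) (F : (κ → B) → ℂ) (v : κ → V) :
    theta a F v = ∑ w : κ → B, F w * ∏ k, ((a (v k) (w k) : ℚ) : ℂ) := by
  unfold theta
  rw [MultilinearMap.sum_apply]
  refine Finset.sum_congr rfl fun w _ => ?_
  rw [MultilinearMap.smul_apply, smul_eq_mul]
  congr 1
  change ((∏ k, a (v k) (w k) : ℚ) : ℂ) = _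
  rw [Rat.cast_prod]

theorem theta_add (a : V →ₗ[ℚ] (B → ℚ)) (F G : (κ → B) → ℂ) :
    theta a (F + G) = theta a F + theta a G := by
  ext v
  rw [MultilinearMap.add_apply, theta_apply, theta_apply, theta_apply, ← Finset.sum_add_distrib]
  refine Finset.sum_congr rfl fun w _ => ?_
  rw [Pi.add_apply, add_mul]

theorem theta_smul (a : V →ₗ[ℚ] (B → ℚ)) (c : ℂ) (F : (κ → B) → ℂ) :
    theta a (c • F) = c • theta a F := by
  ext v
  rw [MultilinearMap.smul_apply, theta_apply, theta_apply, smul_eq_mul, Finset.mul_sum]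
  refine Finset.sum_congr rfl fun w _ => ?_
  rw [Pi.smul_apply, smul_eq_mul, mul_assoc]

theorem theta_zero (a : V →ₗ[ℚ] (B → ℚ)) : theta a (0 : (κ → B) → ℂ) = 0 := by
  ext v
  rw [theta_apply, MultilinearMap.zero_apply]
  refine Finset.sum_eq_zero fun w _ => ?_
  rw [Pi.zero_apply, zero_mul]

/-- A multilinear form is determined by its coefficients. -/
theorem eq_theta (a : V ≃ₗ[ℚ] (B → ℚ)) (G : MultilinearMap ℚ (fun _ : κ => V) ℂ)
    (F : (κ → B) → ℂ) (h : ∀ w : κ → B, G (fun k => a.symm (Pi.single (w k) 1)) = F w) :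
    G = theta a.toLinearMap F := by
  refine Basis.ext_multilinear (fun _ => (Pi.basisFun ℚ B).map a.symm) fun w => ?_
  have h1 : ∀ k, ((Pi.basisFun ℚ B).map a.symm) (w k) = a.symm (Pi.single (w k) 1) := by
    intro k
    rw [Basis.map_apply, Pi.basisFun_apply]
  simp only [h1]
  rw [h, theta_apply, Finset.sum_eq_single w]
  · have h2 : ∀ k, (a.toLinearMap (a.symm (Pi.single (w k) 1))) (w k) = 1 := by
      intro k
      change a (a.symm (Pi.single (w k) 1)) (w k) = 1
      rw [LinearEquiv.apply_symm_apply, Pi.single_eq_same]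
    rw [Finset.prod_congr rfl fun k _ => by rw [h2 k], Rat.cast_one, Finset.prod_const_one,
      mul_one]
  · intro w' _ hw
    obtain ⟨k, hk⟩ : ∃ k, w' k ≠ w k := by
      by_contra hcon
      push Not at hcon
      exact hw (funext hcon)
    have h2 : (a.toLinearMap (a.symm (Pi.single (w k) 1))) (w' k) = 0 := by
      change a (a.symm (Pi.single (w k) 1)) (w' k) = 0
      rw [LinearEquiv.apply_symm_apply, Pi.single_eq_of_ne hk]
    rw [Finset.prod_eq_zero (Finset.mem_univ k) (by rw [h2, Rat.cast_zero]), mul_zero]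
  · intro h'
    exact absurd (Finset.mem_univ _) h'

end theta

section prod

variable {R A V : Type*} [CommRing R] [CommRing A] [Algebra R A] [AddCommGroup V] [Module R V]

/-- Products of multilinear forms in different variables. -/
theorem exists_prod {J : Type*} [Fintype J] [DecidableEq J] {T : J → Type*}
    (F : ∀ j, MultilinearMap R (fun _ : T j => V) A) :
    ∃ G : MultilinearMap R (fun _ : (Σ j, T j) => V) A,
      ∀ v, G v = ∏ j, F j (fun t => v ⟨j, t⟩) := by
  classical
  have key : ∀ (inst : DecidableEq (Σ j, T j)) (v : (Σ j, T j) → V) (j : J) (t : T j) (z : V),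
      ∏ i, F i (fun s => (@Function.update _ _ inst v ⟨j, t⟩ z) ⟨i, s⟩) =
        F j (Function.update (fun s => v ⟨j, s⟩) t z) *
          ∏ i ∈ Finset.univ.erase j, F i (fun s => v ⟨i, s⟩) := by
    intro inst v j t z
    rw [← Finset.mul_prod_erase Finset.univ _ (Finset.mem_univ j)]
    congr 1
    · congr 1
      funext s
      by_cases hs : s = t
      · subst hs
        rw [Function.update_self, Function.update_self]
      · rw [Function.update_of_ne hs, Function.update_of_ne]
        intro h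
        exact hs (eq_of_heq (Sigma.mk.inj h).2)
    · refine Finset.prod_congr rfl fun i hi => ?_
      congr 1
      funext s
      rw [Function.update_of_ne]
      intro h
      exact (Finset.mem_erase.1 hi).1 (Sigma.mk.inj h).1
  refine ⟨{ toFun := fun v => ∏ j, F j (fun t => v ⟨j, t⟩)
            map_update_add' := ?_
            map_update_smul' := ?_ }, fun v => rfl⟩
  · intro inst v ⟨j, t⟩ x y
    rw [key inst, key inst, key inst, MultilinearMap.map_update_add, add_mul]
  · intro inst v ⟨j, t⟩ c x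
    rw [key inst, key inst, MultilinearMap.map_update_smul, smul_mul_assoc]

/-- The product of two multilinear forms in different variables. -/
theorem exists_mul {κ κ' : Type*} (F : MultilinearMap R (fun _ : κ => V) A)
    (G : MultilinearMap R (fun _ : κ' => V) A) :
    ∃ E : MultilinearMap R (fun _ : κ ⊕ κ' => V) A,
      ∀ v, E v = F (fun k => v (Sum.inl k)) * G (fun k => v (Sum.inr k)) := by
  refine ⟨(LinearMap.mul' R A).compMultilinearMap (F.domCoprod G), fun v => ?_⟩
  rw [LinearMap.compMultilinearMap_apply, MultilinearMap.domCoprod_apply, LinearMap.mul'_apply]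

end prod

/-- The value of a monomial is multilinear. -/
theorem Mon.exists_form {𝒟 : Set ℕ} {X : Pool.Agent.Q60.D3.AV} {κ : Type} (M : Mon 𝒟 X κ) :
    ∃ F : MultilinearMap ℚ (fun _ : κ => X.H) ℂ, ∀ v, F v = M.val v := by
  obtain ⟨G1, h1⟩ := exists_prod (R := ℚ) (A := ℂ) (V := X.H) (J := Fin M.m)
    (T := fun j => Fin (M.n j)) fun j =>
      ((M.D j).δ.toMultilinearMap).compLinearMap fun k => M.h j k
  obtain ⟨G2, h2⟩ := exists_prod (R := ℚ) (A := ℂ) (V := X.H) (J := Fin M.p)
    (T := fun _ => Fin 2) fun q => Pool.Agent.Q60.D3.cxM (M.β q)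
  obtain ⟨E, hE⟩ := exists_mul G1 (G2.domDomCongr (Equiv.sigmaEquivProd (Fin M.p) (Fin 2)))
  refine ⟨E.domDomCongr M.e, fun v => ?_⟩
  rw [MultilinearMap.domDomCongr_apply, hE, h1, MultilinearMap.domDomCongr_apply, h2]
  rfl

/-- Multilinearity of a product of determinants and of matrix entries. -/
theorem exists_det {B κ : Type} [Fintype B] [DecidableEq B] [Fintype κ] [DecidableEq κ] {l p : ℕ}
    {n : Fin l → ℕ} (R : ∀ j, Matrix (Fin (n j)) B ℂ)
    (e : (Σ j : Fin l, Fin (n j)) ⊕ (Fin p × Fin 2) ≃ κ) :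
    ∃ Ψ : MultilinearMap ℂ (fun _ : (Σ j : Fin l, Fin (n j)) ⊕ Fin p => Matrix B B ℂ)
      ((κ → B) → ℂ), ∀ x, Ψ x = fun w => (∏ j, (Matrix.of fun a b : Fin (n j) =>
          (R j * x (Sum.inl ⟨j, a⟩)) b (w (e (Sum.inl ⟨j, a⟩)))).det) *
        ∏ s, x (Sum.inr s) (w (e (Sum.inr (s, 0)))) (w (e (Sum.inr (s, 1)))) := by
  have h : ∀ w : κ → B, ∃ Ψ : MultilinearMap ℂ
      (fun _ : (Σ j : Fin l, Fin (n j)) ⊕ Fin p => Matrix B B ℂ) ℂ,
      ∀ x, Ψ x = (∏ j, (Matrix.of fun a b : Fin (n j) =>
          (R j * x (Sum.inl ⟨j, a⟩)) b (w (e (Sum.inl ⟨j, a⟩)))).det) *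
        ∏ s, x (Sum.inr s) (w (e (Sum.inr (s, 0)))) (w (e (Sum.inr (s, 1)))) := by
    intro w
    obtain ⟨G1, h1⟩ := exists_prod (R := ℂ) (A := ℂ) (V := Matrix B B ℂ) (J := Fin l)
      (T := fun j => Fin (n j)) fun j =>
        ((Matrix.detRowAlternating (n := Fin (n j)) (R := ℂ)).toMultilinearMap).compLinearMap
          fun a => LinearMap.pi fun b : Fin (n j) =>
            ({ toFun := fun N => (R j * N) b (w (e (Sum.inl ⟨j, a⟩)))
               map_add' := fun x y => by rw [Matrix.mul_add, Matrix.add_apply]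
               map_smul' := fun c x => by
                rw [Matrix.mul_smul, Matrix.smul_apply, RingHom.id_apply] } :
              Matrix B B ℂ →ₗ[ℂ] ℂ)
    obtain ⟨E, hE⟩ := exists_mul G1 ((MultilinearMap.mkPiAlgebra ℂ (Fin p) ℂ).compLinearMap
      fun s => ({ toFun := fun N => N (w (e (Sum.inr (s, 0)))) (w (e (Sum.inr (s, 1))))
                  map_add' := fun x y => rfl
                  map_smul' := fun c x => rfl } : Matrix B B ℂ →ₗ[ℂ] ℂ))
    refine ⟨E, fun x => ?_⟩
    rw [hE, h1]
    rfl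
  choose Ψ hΨ using h
  refine ⟨MultilinearMap.pi Ψ, fun x => ?_⟩
  funext w
  rw [MultilinearMap.pi_apply]
  exact hΨ w x

end Pool.Agent.Q180.WT
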