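import Mathlib
import Pool.Agent.Q180.WT.Lin
import Pool.Agent.Q280.D3.Wgt

/-!
# The Hodge classes on products of abelian varieties with imaginary quadratic multiplication
-/

set_option linter.unusedSectionVars false
set_option linter.unusedVariables false

namespace Pool.Agent.Q180.WT

open Matrix Module Pool.Agent.H204R3.CM Pool.Agent.H204R3.SP Pool.Agent.W437.HC
  Pool.Agent.W437.HD Pool.Agent.W437.HP
open Pool.Agent.Q60.D3 (AV IsHom cx mulF HasWeight conjF chi cxM ofZ Comm hom_of_comm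
  span_homs span_bil multi_span S_wgt S_ish S_chi)
open Pool.Agent.Y4.K (Pol Pr mu Eqv Iso)
open Pool.Agent.Y4.H (LZ Ct D_mem_LZ Dσ_mem_LZ)

/-- Transport of the weight. -/
theorem hasWeight_comp {H T H' T' κ : Type} [AddCommGroup H] [Module ℚ H] [AddCommGroup T]
    [Module ℂ T] [AddCommGroup H'] [Module ℚ H'] [AddCommGroup T'] [Module ℂ T']
    {per : H →+ T} {per' : H' →+ T'} (a : H →ₗ[ℚ] H') (c : T →ₗ[ℂ] T')
    (hc : ∀ w, c (per w) = per' (a w)) {F : MultilinearMap ℚ (fun _ : κ => H') ℂ} {w : ℤ}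
    (h : HasWeight per' F w) : HasWeight per (F.compLinearMap fun _ => a) w := by
  obtain ⟨ψ, h1, h2⟩ := h
  refine ⟨ψ.compLinearMap fun _ => c.restrictScalars ℝ, fun v => ?_, fun z hz u => ?_⟩
  · change ψ (fun l => c (per (v l))) = F fun l => a (v l)
    rw [← h1]
    congr 1
    funext l
    exact hc (v l)
  · change ψ (fun l => c (z • u l)) = z ^ w * ψ fun l => c (u l)
    rw [← h2 z hz]
    congr 1
    funext l
    rw [map_smul]

/-- Transport of Hodge classes. -/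
theorem isHodge_comp {H T H' T' κ : Type} [AddCommGroup H] [Module ℚ H] [AddCommGroup T]
    [Module ℂ T] [AddCommGroup H'] [Module ℚ H'] [AddCommGroup T'] [Module ℂ T']
    {per : H →+ T} {per' : H' →+ T'} (a : H →ₗ[ℚ] H') (c : T →ₗ[ℂ] T')
    (hc : ∀ w, c (per w) = per' (a w)) {f : H' [⋀^κ]→ₗ[ℚ] ℚ}
    (h : IsHodge per' f) : IsHodge per (f.compLinearMap a) := by
  obtain ⟨ψ, h1, h2⟩ := h
  refine ⟨ψ.compLinearMap fun _ => c.restrictScalars ℝ, fun v => ?_, fun z hz u => ?_⟩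
  · change ψ (fun l => c (per (v l))) = ((f fun l => a (v l) : ℚ) : ℝ)
    rw [← h1]
    congr 1
    funext l
    exact hc (v l)
  · change ψ (fun l => c (z • u l)) = ψ fun l => c (u l)
    rw [← h2 z hz fun l => c (u l)]
    congr 1
    funext l
    rw [map_smul]

/-- The bilinear form of a rational matrix. -/
theorem exists_bil {B V : Type} [Fintype B] [DecidableEq B] [AddCommGroup V] [Module ℚ V]
    (a : V →ₗ[ℚ] (B → ℚ)) (N : Matrix B B ℚ) :
    ∃ β : MultilinearMap ℚ (fun _ : Fin 2 => V) ℚ, ∀ v, β v = a (v 0) ⬝ᵥ (N *ᵥ a (v 1)) := by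
  refine ⟨∑ i, ∑ j, N i j • (MultilinearMap.mkPiAlgebra ℚ (Fin 2) ℚ).compLinearMap
    (fun k => (LinearMap.proj (if k = 0 then i else j)) ∘ₗ a), fun v => ?_⟩
  simp only [MultilinearMap.sum_apply, MultilinearMap.smul_apply,
    MultilinearMap.compLinearMap_apply, MultilinearMap.mkPiAlgebra_apply, Fin.prod_univ_two,
    LinearMap.comp_apply, LinearMap.proj_apply, dotProduct, mulVec, Finset.mul_sum, smul_eq_mul]
  refine Finset.sum_congr rfl fun i _ => Finset.sum_congr rfl fun j _ => ?_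
  simp only [if_true, if_neg (show (1 : Fin 2) ≠ 0 by decide)]
  ring

section blocks

variable {ι : Type} [Fintype ι] [DecidableEq ι] {g : ι → ℕ}
  (Z : ∀ i, Matrix (Fin (g i)) (Fin (g i)) ℂ) (hZ : ∀ i, (Z i)ᵀ = Z i)
  (hpos : ∀ i, (imM (Z i)).PosDef)

theorem PB_same (i : ι) : PB Z hZ hpos i * (PB Z hZ hpos i)ᵀ = 1 :=
  (blocksOf Z hZ hpos).sameK i

theorem PB_D (i : ι) (σ : ℂ ≃+* ℂ) :
    PB Z hZ hpos i * (DZ (bigD ℂ Z)).map (σ : ℂ →+* ℂ) =
      (DZ (Z i)).map (σ : ℂ →+* ℂ) * PB Z hZ hpos i := by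
  have h1 := congrArg (fun A => A.map (σ : ℂ →+* ℂ)) ((blocksOf Z hZ hpos).com i)
  simp only [Matrix.map_mul] at h1
  have h2 : (PB Z hZ hpos i).map (σ : ℂ →+* ℂ) = PB Z hZ hpos i := by
    ext x y
    simp [PB, cK]
  rw [h2] at h1
  exact h1

end blocks

theorem sgb_true : sgb true = 1 := rfl
theorem sgb_false : sgb false = -1 := rfl

theorem chi_sgb (β : Bool) (μ : ℂ) (σ : ℂ ≃+* ℂ) : chi ((sgb β : ℂ) * μ) σ = chi μ σ := by
  cases β
  · rw [sgb_false]
    unfold chi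
    have h1 : σ (((-1 : ℤ) : ℂ) * μ) = ((-1 : ℤ) : ℂ) * μ ↔ σ μ = μ := by
      push_cast
      rw [neg_one_mul, map_neg, neg_inj]
    simp only [h1]
  · rw [sgb_true]
    push_cast
    rw [one_mul]

/-- The data admitted in the theorem. -/
def OkK (𝒟 : Set ℕ) {g : ℕ} {Z : Matrix (Fin g) (Fin g) ℂ} (K : UZ Z) : Prop :=
  Nat.Coprime K.pos K.neg ∧ (g = 1 ∨ (K.pos ≠ K.neg ∧ max K.pos K.neg ∈ 𝒟))

theorem ok_s {𝒟 : Set ℕ} {g p q : ℕ} {s : ℤ} (h1 : p + q = g) (h2 : s = (p : ℤ) - q)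
    (h3 : p ≠ q) (h4 : max p q ∈ 𝒟) (β : Bool) :
    sgb β * s ≠ 0 ∧ ∃ r ∈ 𝒟, g + (sgb β * s).natAbs = 2 * r := by
  have h5 : (sgb β * s).natAbs = s.natAbs := by
    cases β
    · rw [sgb_false, neg_one_mul, Int.natAbs_neg]
    · rw [sgb_true, one_mul]
  have h6 : s ≠ 0 := by omega
  refine ⟨fun h => h6 ?_, max p q, h4, ?_⟩
  · rw [h, Int.natAbs_zero] at h5
    omega
  · rw [h5]
    rcases le_total p q with h | h
    · rw [max_eq_right h]
      omega
    · rw [max_eq_left h]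
      omega

section core

variable (𝒟 : Set ℕ) {ι : Type} [Fintype ι] [DecidableEq ι] (g : ι → ℕ)
  (Z : ∀ i, Matrix (Fin (g i)) (Fin (g i)) ℂ) (hZ : ∀ i, (Z i)ᵀ = Z i)
  (hpos : ∀ i, (imM (Z i)).PosDef)
  (Y : AV) (a : Y.H ≃ₗ[ℚ] (Fin (NB g) ⊕ Fin (NB g) → ℚ)) (c : Y.T ≃ₗ[ℂ] (Fin (NB g) → ℂ))

/-- The rational products. -/
theorem good_mono (hwgt : S_wgt) (hchi : S_chi) (hkon : S_kon) (huza : S_uza) (hbal : S_bal)
    (hc : ∀ w, c (Y.per w) = perOne (bigD ℂ Z) (a w)) {κ : Type} [Fintype κ] [DecidableEq κ]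
    {l p : ℕ} (ii : Fin l → ι) (K : ∀ j, UZ (Z (ii j))) (β : Fin l → Bool)
    (hK : ∀ j, OkK 𝒟 (K j))
    (hbl : ∀ σ : ℂ ≃+* ℂ, ∑ j, sgb (β j) * (K j).sum * chi (K j).μ σ = 0)
    (e : (Σ j : Fin l, Fin (g (ii j))) ⊕ (Fin p × Fin 2) ≃ κ)
    (N1 : (Σ j : Fin l, Fin (g (ii j))) →
      Matrix (Fin (NB g) ⊕ Fin (NB g)) (Fin (NB g) ⊕ Fin (NB g)) ℚ)
    (N2 : Fin p → Matrix (Fin (NB g) ⊕ Fin (NB g)) (Fin (NB g) ⊕ Fin (NB g)) ℚ)
    (h1 : ∀ t, cK ℂ (N1 t) * DZ (bigD ℂ Z) = DZ (bigD ℂ Z) * cK ℂ (N1 t))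
    (h2 : ∀ s, (DZ (bigD ℂ Z))ᵀ * cK ℂ (N2 s) + cK ℂ (N2 s) * DZ (bigD ℂ Z) = 0)
    (G : (κ → Fin (NB g) ⊕ Fin (NB g)) → ℂ)
    (hG : G = fun w => (∏ j, (Matrix.of fun x y : Fin (g (ii j)) =>
          ((K j).cm (β j) * PB Z hZ hpos (ii j) * cK ℂ (N1 ⟨j, x⟩)) y
            (w (e (Sum.inl ⟨j, x⟩)))).det) *
        ∏ s, cK ℂ (N2 s) (w (e (Sum.inr (s, 0)))) (w (e (Sum.inr (s, 1))))) :
    Good 𝒟 Y κ (theta a.toLinearMap G) := by
  have hbpos : (imM (bigD ℂ Z)).PosDef := imM_bigD_posDef Z hpos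
  have hbsymm : (bigD ℂ Z)ᵀ = bigD ℂ Z := bigD_symm hZ
  choose L hL1 hL2 hL3 hL4 using fun j => hkon (g (ii j)) (Z (ii j)) (hZ _) (hpos _) (K j) (β j)
  choose bf hbf using fun s => exists_bil a.toLinearMap (N2 s)
  obtain ⟨Mo, hMo⟩ : ∃ Mo : Mon 𝒟 Y κ, Mo =
      { m := l
        n := fun j => g (ii j)
        A := fun j => ofZ (Z (ii j)) (hZ _) (hpos _)
        D := L
        hD := by
          intro j hj
          obtain ⟨e1, e2⟩ := hK j
          obtain ⟨-, -, -, -, -, -, e3, e4⟩ := huza _ (Z (ii j)) (hZ _) (hpos _) (K j)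
          rw [hL3]
          obtain ⟨e5, e6⟩ := e2.resolve_left hj
          exact ok_s e4 e3 e5 e6 (β j)
        h := fun j k => (Matrix.mulVecLin ((blocksOf Z hZ hpos).P (ii j) * N1 ⟨j, k⟩)) ∘ₗ
          a.toLinearMap
        hh := by
          intro j k
          have e1 : cK ℂ ((blocksOf Z hZ hpos).P (ii j) * N1 ⟨j, k⟩) * DZ (bigD ℂ Z) =
              DZ (Z (ii j)) * cK ℂ ((blocksOf Z hZ hpos).P (ii j) * N1 ⟨j, k⟩) := by
            rw [cK_mul, Matrix.mul_assoc, h1, ← Matrix.mul_assoc, (blocksOf Z hZ hpos).com,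
              Matrix.mul_assoc]
          obtain ⟨C, hC⟩ := hom_of_comm hbsymm hbpos (hZ (ii j)) (hpos (ii j)) e1
          refine ⟨C ∘ₗ c.toLinearMap, fun w => ?_⟩
          change C (c (Y.per w)) = _
          rw [hc]
          exact hC (a w)
        p := p
        β := bf
        hβ := by
          intro s
          obtain ⟨b0, hb0⟩ := exists_bil (LinearMap.id (R := ℚ)
            (M := Fin (NB g) ⊕ Fin (NB g) → ℚ)) (N2 s)
          have e1 : cxM (bf s) = (cxM b0).compLinearMap fun _ => a.toLinearMap := by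
            ext v
            change ((bf s v : ℚ) : ℂ) = ((b0 fun k => a.toLinearMap (v k) : ℚ) : ℂ)
            rw [hbf, hb0]
            rfl
          rw [e1]
          refine hasWeight_comp a.toLinearMap c.toLinearMap hc ?_
          refine hwgt _ _ hbpos (Fin 2) (cxM b0) 0 ?_
          have e2 : (fun I : Fin 2 → Fin (NB g) ⊕ Fin (NB g) =>
              (cxM b0) fun k => Pi.single (I k) 1) = bilc (cK ℂ (N2 s)) := by
            funext I
            change ((b0 (fun k => Pi.single (I k) 1) : ℚ) : ℂ) = ((N2 s (I 0) (I 1) : ℚ) : ℂ)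
            rw [hb0]
            congr 1
            change (Pi.single (I 0) 1 : Fin (NB g) ⊕ Fin (NB g) → ℚ) ⬝ᵥ
              (N2 s *ᵥ Pi.single (I 1) 1) = _
            rw [single_one_dotProduct, mulVec_single_one]
            rfl
          rw [e2]
          funext I
          rw [act_bilc, h2]
          simp
        e := e } := ⟨_, rfl⟩
  obtain ⟨F, hF⟩ := Mo.exists_form
  have hgood := hbal 𝒟 Y κ Mo ?_ F hF
  · rw [eq_theta a F G ?_] at hgood
    · exact hgood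
    · intro w
      rw [hF, hMo, hG]
      unfold Mon.val
      congr 1
      · refine Finset.prod_congr rfl fun j _ => ?_
        change (L j).δ (fun k => ((blocksOf Z hZ hpos).P (ii j) * N1 ⟨j, k⟩) *ᵥ
          (a (a.symm (Pi.single (w (e (Sum.inl ⟨j, k⟩))) 1)))) = _
        rw [hL4]
        congr 1
        ext x y
        rw [Matrix.of_apply, Matrix.of_apply, LinearEquiv.apply_symm_apply,
          Pool.Agent.Q60.D3.cast_mulVec,
          mulVec_mulVec, cK_mul, ← Matrix.mul_assoc]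
        have e1 : (fun k => (((Pi.single (w (e (Sum.inl ⟨j, x⟩))) (1 : ℚ) :
            Fin (NB g) ⊕ Fin (NB g) → ℚ) k : ℚ) : ℂ)) =
            Pi.single (w (e (Sum.inl ⟨j, x⟩))) 1 := by
          funext k
          by_cases hk : k = w (e (Sum.inl ⟨j, x⟩))
          · rw [hk, Pi.single_eq_same, Pi.single_eq_same, Rat.cast_one]
          · rw [Pi.single_eq_of_ne hk, Pi.single_eq_of_ne hk, Rat.cast_zero]
        rw [e1, mulVec_single_one]
        rfl
      · refine Finset.prod_congr rfl fun s _ => ?_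
        change ((bf s (fun k => a.symm (Pi.single (w (e (Sum.inr (s, k)))) 1)) : ℚ) : ℂ) =
          ((N2 s (w (e (Sum.inr (s, 0)))) (w (e (Sum.inr (s, 1)))) : ℚ) : ℂ)
        rw [hbf]
        congr 1
        change (a (a.symm (Pi.single (w (e (Sum.inr (s, 0)))) 1))) ⬝ᵥ
          (N2 s *ᵥ a (a.symm (Pi.single (w (e (Sum.inr (s, 1)))) 1))) = _
        rw [LinearEquiv.apply_symm_apply, LinearEquiv.apply_symm_apply, single_one_dotProduct,
          mulVec_single_one]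
        rfl
  · rw [hMo]
    intro d
    refine hchi l (fun j => (L j).d) (fun j => (L j).hd) (fun j => (L j).μ) (fun j => (L j).hμ)
      (fun j => (L j).s) (fun σ => ?_) d
    rw [← hbl σ]
    refine Finset.sum_congr rfl fun j _ => ?_
    rw [hL3, hL2, chi_sgb]

include hZ hpos in
/-- **The Hodge classes are generated.** -/
theorem core (hdesc : S_desc) (halt : S_good_alt) (hlin : S_good_lin) (hexp : S_expw)
    (haln : S_aln) (htrz : S_trz) (hwgt : S_wgt) (hish : S_ish) (hchi : S_chi) (hkon : S_kon)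
    (huza : S_uza) (hbal : S_bal)
    (hdata : ∀ i, (∃ K : UZ (Z i), OkK 𝒟 K) ∨ (g i = 1 ∧ ¬ Comm (Z i)))
    (hc : ∀ w, c (Y.per w) = perOne (bigD ℂ Z) (a w)) (κ : Type) [Fintype κ]
    (f : Y.H [⋀^κ]→ₗ[ℚ] ℚ) (hf : IsHodge Y.per f) : Gen 𝒟 Y κ f := by
  classical
  have hbpos : (imM (bigD ℂ Z)).PosDef := imM_bigD_posDef Z hpos
  have hbsymm : (bigD ℂ Z)ᵀ = bigD ℂ Z := bigD_symm hZ
  have M : Pol (bigD ℂ Z) := ⟨hbsymm, hbpos⟩
  obtain ⟨hcop, hsep, hal⟩ := haln ι g Z hZ hpos (fun i => OkK 𝒟) (fun i K h => h.1) hdata M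
  apply hdesc
  rw [← halt]
  have hH : IsH (DZ (bigD ℂ Z)) fun I : κ → Fin (NB g) ⊕ Fin (NB g) =>
      (f.compLinearMap a.symm.toLinearMap) fun k => Pi.single (I k) 1 := by
    refine hish _ _ hbpos κ _ (isHodge_comp a.symm.toLinearMap c.symm.toLinearMap ?_ hf)
    intro w
    change c.symm (perOne (bigD ℂ Z) w) = Y.per (a.symm w)
    rw [LinearEquiv.symm_apply_eq, hc, LinearEquiv.apply_symm_apply]
  rw [eq_theta a (cx f).toMultilinearMap (cst ℂ fun I : κ → Fin (NB g) ⊕ Fin (NB g) =>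
    (f.compLinearMap a.symm.toLinearMap) fun k => Pi.single (I k) 1) (fun w => rfl)]
  obtain ⟨hadd, hsmul, hzero⟩ := hlin 𝒟 Y κ
  have hspan : ∀ (S : Set ((κ → Fin (NB g) ⊕ Fin (NB g)) → ℂ)),
      (∀ G ∈ S, Good 𝒟 Y κ (theta a.toLinearMap G)) →
      ∀ G ∈ Submodule.span ℂ S, Good 𝒟 Y κ (theta a.toLinearMap G) := by
    intro S hS G hG
    induction hG using Submodule.span_induction with
    | mem G hG => exact hS G hG
    | zero => rw [theta_zero]; exact hzero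
    | add x y _ _ hx hy => rw [theta_add]; exact hadd _ _ hx hy
    | smul r x _ hx => rw [theta_smul]; exact hsmul _ _ hx
  refine hspan _ ?_ _ (hexp _ _ M hcop hsep κ _ hH)
  rintro G ⟨l, p, φ, n, Q, V, e, C, G2, hQV, hVQ, hne, hC, hG2, htr, rfl⟩
  choose ii K β A' C' hOk hA hC' hCA hAC using fun j => hal (φ j) (hne j)
  have hRR : ∀ j, (Q j * C' j * (PB Z hZ hpos (ii j))ᵀ * (K j).bm (β j)) *
      ((K j).cm (β j) * PB Z hZ hpos (ii j) * A' j * V j) = 1 := by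
    intro j
    calc _ = Q j * C' j * ((PB Z hZ hpos (ii j))ᵀ * ((K j).bm (β j) * (K j).cm (β j)) *
          PB Z hZ hpos (ii j)) * A' j * V j := by simp only [Matrix.mul_assoc]
      _ = Q j * (C' j * A' j) * (C' j * A' j) * V j := by
          rw [← hAC]
          simp only [Matrix.mul_assoc]
      _ = (Q j * V j) * (Q j * V j) * (Q j * V j) := by
          rw [hCA, ← hVQ]
          simp only [Matrix.mul_assoc]
      _ = 1 := by rw [hQV, Matrix.one_mul, Matrix.one_mul]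
  have huz := fun j => huza _ (Z (ii j)) (hZ _) (hpos _) (K j)
  have hcb : ∀ j, (K j).cm (β j) * (K j).bm (β j) = 1 := fun j => (huz j).1 (β j)
  have hRR' : ∀ j, ((K j).cm (β j) * PB Z hZ hpos (ii j) * A' j * V j) *
      (Q j * C' j * (PB Z hZ hpos (ii j))ᵀ * (K j).bm (β j)) = 1 := by
    intro j
    obtain ⟨E, hE⟩ : ∃ E, E = (PB Z hZ hpos (ii j))ᵀ * ((K j).bm (β j) * (K j).cm (β j)) *
      PB Z hZ hpos (ii j) := ⟨_, rfl⟩
    calc _ = (K j).cm (β j) * PB Z hZ hpos (ii j) * (A' j * (V j * Q j) * C' j) *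
          (PB Z hZ hpos (ii j))ᵀ * (K j).bm (β j) := by simp only [Matrix.mul_assoc]
      _ = (K j).cm (β j) * PB Z hZ hpos (ii j) * ((A' j * C' j) * (A' j * C' j)) *
          (PB Z hZ hpos (ii j))ᵀ * (K j).bm (β j) := by
          rw [hVQ, ← hCA]
          simp only [Matrix.mul_assoc]
      _ = (K j).cm (β j) * (PB Z hZ hpos (ii j) * (PB Z hZ hpos (ii j))ᵀ) * (K j).bm (β j) *
          ((K j).cm (β j) * (PB Z hZ hpos (ii j) * (PB Z hZ hpos (ii j))ᵀ) * (K j).bm (β j)) *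
          ((K j).cm (β j) * (PB Z hZ hpos (ii j) * (PB Z hZ hpos (ii j))ᵀ) * (K j).bm (β j)) := by
          rw [hAC]
          simp only [Matrix.mul_assoc]
      _ = 1 := by
          rw [PB_same, Matrix.mul_one, hcb, Matrix.one_mul, Matrix.one_mul]
  have hn : ∀ j, n j = g (ii j) := by
    intro j
    have e1 := congrArg trace (hRR j)
    have e2 := congrArg trace (hRR' j)
    rw [trace_mul_comm, e2, trace_one, trace_one, Fintype.card_fin, Fintype.card_fin] at e1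
    exact_mod_cast e1.symm
  obtain rfl : n = fun j => g (ii j) := funext hn
  have hfac : ∀ (j) (x : Fin (g (ii j))), Q j * C j x =
      (Q j * C' j * (PB Z hZ hpos (ii j))ᵀ * (K j).bm (β j)) *
        ((K j).cm (β j) * PB Z hZ hpos (ii j) * (A' j * C j x)) := by
    intro j x
    symm
    calc _ = Q j * C' j * ((PB Z hZ hpos (ii j))ᵀ * ((K j).bm (β j) * (K j).cm (β j)) *
          PB Z hZ hpos (ii j)) * A' j * C j x := by simp only [Matrix.mul_assoc]
      _ = Q j * (C' j * A' j) * (C' j * A' j) * C j x := by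
          rw [← hAC]
          simp only [Matrix.mul_assoc]
      _ = (Q j * V j) * (Q j * V j) * Q j * C j x := by
          rw [hCA, ← hVQ]
          simp only [Matrix.mul_assoc]
      _ = Q j * C j x := by rw [hQV, Matrix.one_mul, Matrix.one_mul]
  obtain ⟨Ψ, hΨ⟩ := exists_det (fun j => (K j).cm (β j) * PB Z hZ hpos (ii j)) e
  obtain ⟨X, hX⟩ : ∃ X : (Σ j : Fin l, Fin (g (ii j))) ⊕ Fin p →
      Matrix (Fin (NB g) ⊕ Fin (NB g)) (Fin (NB g) ⊕ Fin (NB g)) ℂ,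
      X = Sum.elim (fun t => A' t.1 * C t.1 t.2) G2 := ⟨_, rfl⟩
  have hGX : (fun w : κ → Fin (NB g) ⊕ Fin (NB g) => (∏ j, (Matrix.of fun x y : Fin (g (ii j)) =>
      (Q j * C j x) y (w (e (Sum.inl ⟨j, x⟩)))).det) *
        ∏ s, G2 s (w (e (Sum.inr (s, 0)))) (w (e (Sum.inr (s, 1))))) =
      (∏ j, (Q j * C' j * (PB Z hZ hpos (ii j))ᵀ * (K j).bm (β j)).det) • Ψ X := by
    rw [hΨ, hX]
    funext w
    rw [Pi.smul_apply, smul_eq_mul, ← mul_assoc, ← Finset.prod_mul_distrib]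
    congr 1
    refine Finset.prod_congr rfl fun j _ => ?_
    rw [mul_comm, ← det_transpose (Q j * C' j * (PB Z hZ hpos (ii j))ᵀ * (K j).bm (β j)),
      ← det_mul]
    congr 1
    ext x y
    rw [Matrix.mul_apply, Matrix.of_apply, hfac, Matrix.mul_apply]
    refine Finset.sum_congr rfl fun z _ => ?_
    rw [Matrix.of_apply, transpose_apply, mul_comm]
    rfl
  change Good 𝒟 Y κ (theta a.toLinearMap (fun w : κ → Fin (NB g) ⊕ Fin (NB g) =>
    (∏ j, (Matrix.of fun x y : Fin (g (ii j)) =>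
      (Q j * C j x) y (w (e (Sum.inl ⟨j, x⟩)))).det) *
        ∏ s, G2 s (w (e (Sum.inr (s, 0)))) (w (e (Sum.inr (s, 1))))))
  rw [hGX, theta_smul]
  apply hsmul
  refine hspan _ ?_ _ (multi_span Ψ (fun t => Sum.elim
    (fun _ => {Y | ∃ N : Matrix (Fin (NB g) ⊕ Fin (NB g)) (Fin (NB g) ⊕ Fin (NB g)) ℚ,
      cK ℂ N * DZ (bigD ℂ Z) = DZ (bigD ℂ Z) * cK ℂ N ∧ Y = cK ℂ N})
    (fun _ => {Y | ∃ N : Matrix (Fin (NB g) ⊕ Fin (NB g)) (Fin (NB g) ⊕ Fin (NB g)) ℚ,
      (DZ (bigD ℂ Z))ᵀ * cK ℂ N + cK ℂ N * DZ (bigD ℂ Z) = 0 ∧ Y = cK ℂ N}) t) X ?_)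
  · rintro G ⟨s, hs, rfl⟩
    have hs1 : ∀ t : Σ j : Fin l, Fin (g (ii j)),
        ∃ N : Matrix (Fin (NB g) ⊕ Fin (NB g)) (Fin (NB g) ⊕ Fin (NB g)) ℚ,
        cK ℂ N * DZ (bigD ℂ Z) = DZ (bigD ℂ Z) * cK ℂ N ∧ s (Sum.inl t) = cK ℂ N :=
      fun t => hs (Sum.inl t)
    have hs2 : ∀ t : Fin p,
        ∃ N : Matrix (Fin (NB g) ⊕ Fin (NB g)) (Fin (NB g) ⊕ Fin (NB g)) ℚ,
        (DZ (bigD ℂ Z))ᵀ * cK ℂ N + cK ℂ N * DZ (bigD ℂ Z) = 0 ∧ s (Sum.inr t) = cK ℂ N :=
      fun t => hs (Sum.inr t)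
    choose N1 hN1 hN1' using hs1
    choose N2 hN2 hN2' using hs2
    refine good_mono 𝒟 g Z hZ hpos Y a c hwgt hchi hkon huza hbal hc ii K β hOk ?_ e N1 N2 hN1
      hN2 _ ?_
    · intro σ
      have h1 : ∀ j, trace ((DZ (bigD ℂ Z)).map (σ : ℂ →+* ℂ) * (φ j).e) =
          ((sgb (β j) * (K j).sum * chi (K j).μ σ : ℤ) : ℂ) := by
        intro j
        rw [← htrz _ (Z (ii j)) (hZ _) (hpos _) (K j) (β j) σ, ← hCA]
        have h2 : C' j * (DZ (bigD ℂ Z)).map (σ : ℂ →+* ℂ) =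
            (DZ (bigD ℂ Z)).map (σ : ℂ →+* ℂ) * C' j := hC' j _ (Dσ_mem_LZ σ)
        have h3 : A' j * (DZ (bigD ℂ Z)).map (σ : ℂ →+* ℂ) =
            (DZ (bigD ℂ Z)).map (σ : ℂ →+* ℂ) * A' j := hA j _ (Dσ_mem_LZ σ)
        rw [← Matrix.mul_assoc, trace_mul_comm, ← Matrix.mul_assoc, h3, Matrix.mul_assoc, hAC]
        have h4 := PB_D Z hZ hpos (ii j) σ
        calc _ = trace (((DZ (bigD ℂ Z)).map (σ : ℂ →+* ℂ) * ((PB Z hZ hpos (ii j))ᵀ *
              ((K j).bm (β j) * (K j).cm (β j)))) * PB Z hZ hpos (ii j)) := by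
              simp only [Matrix.mul_assoc]
          _ = trace ((PB Z hZ hpos (ii j) * (DZ (bigD ℂ Z)).map (σ : ℂ →+* ℂ)) *
              ((PB Z hZ hpos (ii j))ᵀ * ((K j).bm (β j) * (K j).cm (β j)))) := by
              rw [trace_mul_comm, Matrix.mul_assoc]
          _ = trace ((DZ (Z (ii j))).map (σ : ℂ →+* ℂ) * (PB Z hZ hpos (ii j) *
              (PB Z hZ hpos (ii j))ᵀ) * ((K j).bm (β j) * (K j).cm (β j))) := by
              rw [h4]
              simp only [Matrix.mul_assoc]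
          _ = _ := by rw [PB_same, Matrix.mul_one]
      have h2 := htr σ
      simp only [h1] at h2
      exact_mod_cast h2
    · rw [hΨ]
      funext w
      congr 1
      · refine Finset.prod_congr rfl fun j _ => ?_
        congr 1
        ext x y
        rw [Matrix.of_apply, Matrix.of_apply, hN1']
      · refine Finset.prod_congr rfl fun t _ => ?_
        rw [hN2']
  · rintro (⟨j, x⟩ | s)
    · rw [hX]
      have h1 : ∀ σ : ℂ ≃+* ℂ, (A' j * C j x) * (DZ (bigD ℂ Z)).map σ =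
          (DZ (bigD ℂ Z)).map σ * (A' j * C j x) := by
        intro σ
        have h2 : C j x * (DZ (bigD ℂ Z)).map σ = (DZ (bigD ℂ Z)).map σ * C j x :=
          hC j x _ (Dσ_mem_LZ σ)
        have h3 : A' j * (DZ (bigD ℂ Z)).map σ = (DZ (bigD ℂ Z)).map σ * A' j :=
          hA j _ (Dσ_mem_LZ σ)
        rw [Matrix.mul_assoc, h2, ← Matrix.mul_assoc, h3, Matrix.mul_assoc]
      exact span_homs h1
    · rw [hX]
      exact span_bil (hG2 s)

end core

end Pool.Agent.Q180.WT
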