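import Mathlib
import Pool.Agent.Q180.WT.StmB
import Pool.Agent.Q180.D3.Exp

/-!
# The expansion of a Hodge tensor if all places are coprime and separated
-/

set_option linter.unusedSectionVars false
set_option linter.unusedVariables false

namespace Pool.Agent.Q180.WT

open Matrix Module Pool.Agent.H204R3.CM Pool.Agent.H204R3.SP Pool.Agent.H204R3.GP
  Pool.Agent.H194R3.CM Pool.Agent.W437.HC
  Pool.Agent.W437.HD Pool.Agent.W437.HQ Pool.Agent.W548.Odd Pool.Agent.TH125 Pool.Agent.Y4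
  Pool.Agent.Y4.G Pool.Agent.Y4.K

open Pool.Agent.Y4.H (exists_prims LZ Ct map_smul_aut' D_mem_LZ Dσ_mem_LZ)
open Pool.Agent.Q59.GC (Labels Letter)

variable {g : ℕ} {Z : Matrix (Fin g) (Fin g) ℂ}

/-- The letters, the bases and the coordinates for a general period matrix. -/
structure Fr (M : Pol Z) where
  P : Type
  [fP : Fintype P]
  [dP : DecidableEq P]
  ρ : P → Pr Z
  Rp : Reps ρ
  b : P → P
  u : P → Matrix (Fin g ⊕ Fin g) (Fin g ⊕ Fin g) ℂ
  w : P → Matrix (Fin g ⊕ Fin g) (Fin g ⊕ Fin g) ℂ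
  Dt : Dat M ρ b u w
  R : Type
  [fR : Fintype R]
  [dR : DecidableEq R]
  cls : R → P
  inv : R → R
  jj : R → ℂ
  ev : R → Fin g ⊕ Fin g → ℂ
  hinv : ∀ x, inv (inv x) = x
  hjj : ∀ x, jj (inv x) = -jj x
  hj0 : ∀ x, jj x ≠ 0
  hci : ∀ x, cls (inv x) = b (cls x)
  hJ : ∀ x y, ww (Om g ℂ * ∑ p, u p) (ev x) (ev y) = JJ inv jj x y
  hev : ∀ x, (ρ (cls x)).e *ᵥ ev x = ev x
  hspan : ∀ p x, (ρ p).e *ᵥ x = x → x ∈ Submodule.span ℂ (ev '' {z | cls z = p})
  I : Type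
  [fI : Fintype I]
  [dI : DecidableEq I]
  ε : I → Pr Z
  f3 : ∑ i, (ε i).e = 1
  r : I → P
  α : I → Matrix (Fin g ⊕ Fin g) (Fin g ⊕ Fin g) ℂ
  β : I → Matrix (Fin g ⊕ Fin g) (Fin g ⊕ Fin g) ℂ
  hαβ : ∀ i, Iso (ρ (r i)) (ε i) (α i) (β i)

attribute [instance] Fr.fP Fr.dP Fr.fR Fr.dR Fr.fI Fr.dI

theorem pair_of (M : Pol Z) {P : Type} [Fintype P] [DecidableEq P] {ρ : P → Pr Z} (Rp : Reps ρ)
    {b : P → P} {u w : P → Matrix (Fin g ⊕ Fin g) (Fin g ⊕ Fin g) ℂ} (Dt : Dat M ρ b u w)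
    (p q : P) (x y : Fin g ⊕ Fin g → ℂ) (hx : (ρ p).e *ᵥ x = x) (hy : (ρ q).e *ᵥ y = y)
    (h : ww (Om g ℂ * ∑ p, u p) x y ≠ 0) : q = b p := by
  by_contra hne
  apply h
  have hUm := M.OmU_mul Rp Dt
  unfold ww
  rw [← hy, mulVec_mulVec, hUm, ← hx, ← mulVec_mulVec, dotProduct_mulVec, vecMul_transpose,
    mulVec_mulVec, Rp.orth _ _ (fun h => hne (by rw [← h, Dt.bb])), zero_mulVec,
    zero_dotProduct]

theorem rad_of (M : Pol Z) {P : Type} [Fintype P] [DecidableEq P] {ρ : P → Pr Z} (Rp : Reps ρ)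
    {b : P → P} {u w : P → Matrix (Fin g ⊕ Fin g) (Fin g ⊕ Fin g) ℂ} (Dt : Dat M ρ b u w)
    (p : P) (x : Fin g ⊕ Fin g → ℂ) (hx : (ρ p).e *ᵥ x = x)
    (h : ∀ y, (ρ (b p)).e *ᵥ y = y → ww (Om g ℂ * ∑ p, u p) x y = 0) : x = 0 := by
  refine M.radical hx fun z hz => ?_
  have h1 := h (w p *ᵥ z) (by rw [mulVec_mulVec, (Dt.iso p).lb])
  have h3 : (Om g ℂ * ∑ p, u p) * w p = Om g ℂ * (M.bar (ρ p)).e := by
    rw [← (Dt.iso p).lb, ← mul_assoc, mul_assoc (Om g ℂ), M.U_mul Rp Dt, Dt.bb,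
      mul_assoc, (Dt.iso p).ab]
  have h2 : (Om g ℂ * ∑ p, u p) *ᵥ (w p *ᵥ z) = Om g ℂ *ᵥ z := by
    rw [mulVec_mulVec, h3, ← mulVec_mulVec, hz]
  unfold ww at h1 ⊢
  rw [h2] at h1
  exact h1

theorem hr2_of (M : Pol Z) (hcop : M.Cop) (φ : Pr Z) (hb : Eqv φ (M.bar φ)) :
    mu φ + mu (M.bar φ) = 2 := by
  obtain ⟨σ, hσ⟩ := hcop φ
  have h1 := M.mu_eqv (M.eqv_act hb σ)
  rw [← M.bar_act] at h1
  rw [← h1, Nat.coprime_self] at hσ
  rw [← M.mu_act σ, ← h1, hσ]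

/-- Existence. -/
theorem exists_fr (M : Pol Z) (hcop : M.Cop) : Nonempty (Fr M) := by
  classical
  obtain ⟨P, hP, ρ, Rp⟩ := M.exists_reps
  obtain ⟨b, u, w, Dt⟩ := M.exists_dat Rp (M.nil_all hcop) (hr2_of M hcop)
  have hdim : ∀ p, b p = p → finrank ℂ (LinearMap.range (mulVecLin (ρ p).e)) = 2 := by
    intro p hp
    have h1 := Dt.iso p
    rw [hp] at h1
    have h2 := M.trace_e (ρ p)
    rw [trace_idemM (ρ p).idem, hr2_of M hcop _ ⟨_, _, h1⟩] at h2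
    exact_mod_cast h2
  obtain ⟨R, hR1, hR2, cls, inv, jj, ev, hinv, hjj, hj0, hci, hJ, hev, hspan⟩ :=
    exists_symp (e := fun p => (ρ p).e) (M.OmU_T Dt) (fun p => (ρ p).idem) Dt.bb
      (pair_of M Rp Dt) (rad_of M Rp Dt) hdim
  obtain ⟨I, hI, ε, f1, f2, f3⟩ := M.exists_family
  choose r hr using fun i => Rp.surj (ε i)
  choose α β hαβ using hr
  exact ⟨{
    P := P
    ρ := ρ
    Rp := Rp
    b := b
    u := u
    w := w
    Dt := Dt
    R := R
    cls := cls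
    inv := inv
    jj := jj
    ev := ev
    hinv := hinv
    hjj := hjj
    hj0 := hj0
    hci := hci
    hJ := hJ
    hev := hev
    hspan := hspan
    I := I
    ε := ε
    f3 := f3
    r := r
    α := α
    β := β
    hαβ := hαβ }⟩

namespace Fr

variable {M : Pol Z} (F : Fr M)

/-- The form. -/
noncomputable def O : Matrix (Fin g ⊕ Fin g) (Fin g ⊕ Fin g) ℂ := Om g ℂ * ∑ p, F.u p

/-- The matrix of the bases. -/
noncomputable def Ev : Matrix (Fin g ⊕ Fin g) F.R ℂ := Matrix.of fun k z => F.ev z k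

/-- The coordinates. -/
noncomputable def Co : Matrix F.R (Fin g ⊕ Fin g) ℂ :=
  Matrix.of fun z k => (F.jj (F.inv z))⁻¹ * (F.ev (F.inv z) ᵥ* F.O) k

theorem OT : F.Oᵀ = -F.O := M.OmU_T F.Dt

theorem Oρ (q : F.P) : F.O * (F.ρ q).e = (F.ρ (F.b q)).eᵀ * F.O := M.OmU_mul F.Rp F.Dt q

theorem hJ' (x y : F.R) : F.ev x ⬝ᵥ (F.O *ᵥ F.ev y) = JJ F.inv F.jj x y := F.hJ x y

theorem hv (p : F.P) (z : F.R) : (F.ρ p).e *ᵥ F.ev z = if F.cls z = p then F.ev z else 0 := by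
  by_cases h : F.cls z = p
  · rw [if_pos h, ← h, F.hev]
  · rw [if_neg h, ← F.hev z, mulVec_mulVec, F.Rp.orth _ _ (Ne.symm h), zero_mulVec]

theorem hCo (z : F.R) (v : Fin g ⊕ Fin g → ℂ) :
    (F.Co *ᵥ v) z = (F.jj (F.inv z))⁻¹ * (F.ev (F.inv z) ⬝ᵥ (F.O *ᵥ v)) := by
  change ∑ k, (F.jj (F.inv z))⁻¹ * (F.ev (F.inv z) ᵥ* F.O) k * v k = _
  rw [dotProduct_mulVec, dotProduct, Finset.mul_sum]
  exact Finset.sum_congr rfl fun i _ => by ring

theorem hCoe (x y : F.R) : (F.Co *ᵥ F.ev y) x = if x = y then 1 else 0 := by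
  rw [F.hCo, F.hJ']
  unfold JJ
  rw [F.hinv]
  by_cases h : x = y
  · subst h
    rw [if_pos rfl, if_pos rfl, inv_mul_cancel₀ (F.hj0 _)]
  · rw [if_neg (fun h' => h h'.symm), if_neg h, mul_zero]

/-- The coordinates only see the place. -/
theorem Coρ (z : F.R) (v : Fin g ⊕ Fin g → ℂ) :
    (F.Co *ᵥ ((F.ρ (F.cls z)).e *ᵥ v)) z = (F.Co *ᵥ v) z := by
  rw [F.hCo, F.hCo, mulVec_mulVec, F.Oρ, ← mulVec_mulVec, dotProduct_mulVec, vecMul_transpose,
    ← F.hci, F.hev]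

theorem Coρ0 {z : F.R} {p : F.P} (h : F.cls z ≠ p) (v : Fin g ⊕ Fin g → ℂ) :
    (F.Co *ᵥ ((F.ρ p).e *ᵥ v)) z = 0 := by
  rw [← F.Coρ, mulVec_mulVec _ (F.ρ (F.cls z)).e, F.Rp.orth _ _ h, zero_mulVec, mulVec_zero,
    Pi.zero_apply]

theorem hrec (p : F.P) (v : Fin g ⊕ Fin g → ℂ) (hv : (F.ρ p).e *ᵥ v = v) :
    F.Ev *ᵥ (F.Co *ᵥ v) = v := by
  have h1 := F.hspan p v hv
  have h2 : Submodule.span ℂ (F.ev '' {z | F.cls z = p}) ≤
      LinearMap.ker (mulVecLin (F.Ev * F.Co) - LinearMap.id) := by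
    rw [Submodule.span_le]
    rintro _ ⟨y, _, rfl⟩
    rw [SetLike.mem_coe, LinearMap.mem_ker, LinearMap.sub_apply, mulVecLin_apply,
      ← mulVec_mulVec, LinearMap.id_apply, sub_eq_zero]
    have h3 : F.Co *ᵥ F.ev y = Pi.single y 1 := by
      funext x
      rw [F.hCoe, Pi.single_apply]
    rw [h3, mulVec_single_one]
    rfl
  have h3 := h2 h1
  rw [LinearMap.mem_ker, LinearMap.sub_apply, mulVecLin_apply, ← mulVec_mulVec,
    LinearMap.id_apply, sub_eq_zero] at h3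
  exact h3

theorem rec_sum (p : F.P) (v : Fin g ⊕ Fin g → ℂ) (hv : (F.ρ p).e *ᵥ v = v) :
    v = ∑ z, (F.Co *ᵥ v) z • F.ev z := by
  conv_lhs => rw [← F.hrec p v hv]
  funext i
  rw [Finset.sum_apply]
  change ∑ z, F.ev z i * (F.Co *ᵥ v) z = _
  exact Finset.sum_congr rfl fun z _ => by rw [Pi.smul_apply, smul_eq_mul, mul_comm]

theorem hUX {X : Matrix (Fin g ⊕ Fin g) (Fin g ⊕ Fin g) ℂ} (hX : X ∈ lieM (DZ Z) ℂ) :
    Xᵀ * F.O + F.O * X = 0 := by
  have h1 := M.comm_lieM (M.Ct_U F.Dt) hX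
  have h2 := sp_C M.symm X hX
  unfold O
  rw [mul_assoc (Om g ℂ), h1, ← mul_assoc, ← mul_assoc, ← add_mul, h2, zero_mul]

theorem inv_ne (x : F.R) : F.inv x ≠ x := by
  intro h
  have h1 := F.hjj x
  rw [h] at h1
  have h2 : (2 : ℂ) * F.jj x = 0 := by linear_combination h1
  exact F.hj0 x ((mul_eq_zero.1 h2).resolve_left two_ne_zero)

/-- The number of the letters at a place. -/
theorem card_fib (p : F.P) : (Fintype.card {x // F.cls x = p} : ℂ) = trace (F.ρ p).e := by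
  have h1 : (F.ρ p).e = (Matrix.of fun k (z : {x // F.cls x = p}) => F.ev z.1 k) *
      (Matrix.of fun (z : {x // F.cls x = p}) k => F.Co z.1 k) := by
    ext i j
    have h2 := congrFun (F.rec_sum p ((F.ρ p).e *ᵥ Pi.single j 1) (by
      rw [mulVec_mulVec, Pr.idem])) i
    rw [mulVec_single_one] at h2
    change (F.ρ p).e i j = _ at h2
    rw [h2, Finset.sum_apply, Matrix.mul_apply]
    have h4 : ∀ z : F.R, (F.Co *ᵥ (F.ρ p).e.col j) z = if F.cls z = p then F.Co z j else 0 := by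
      intro z
      have h5 : (F.ρ p).e.col j = (F.ρ p).e *ᵥ Pi.single j 1 := by rw [mulVec_single_one]
      rw [h5]
      by_cases h : F.cls z = p
      · rw [if_pos h, ← h, F.Coρ, mulVec_single_one]
        rfl
      · rw [if_neg h, F.Coρ0 h]
    refine Eq.trans ?_ (Finset.sum_subtype (Finset.univ.filter fun x => F.cls x = p)
      (fun x => by simp) (fun z => F.ev z i * F.Co z j))
    rw [Finset.sum_filter]
    refine Finset.sum_congr rfl fun z _ => ?_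
    rw [Pi.smul_apply, smul_eq_mul, h4]
    split_ifs
    · rw [mul_comm]
    · rw [zero_mul]
  rw [h1, trace_mul_comm]
  have h2 : (Matrix.of fun (z : {x // F.cls x = p}) k => F.Co z.1 k) *
      (Matrix.of fun k (z : {x // F.cls x = p}) => F.ev z.1 k) = 1 := by
    ext x y
    have h3 := F.hCoe x.1 y.1
    rw [Matrix.one_apply]
    simp only [Subtype.ext_iff]
    rw [← h3]
    rfl
  rw [h2, trace_one]

theorem JJ_anti (x y : F.R) : JJ F.inv F.jj x y = -JJ F.inv F.jj y x := by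
  rw [← F.hJ', ← F.hJ', dotProduct_mulVec, ← mulVec_transpose, F.OT, neg_mulVec, neg_dotProduct,
    dotProduct_comm]

/-- The elements of the Lie algebra given by two letters. -/
theorem exists_root (hcop : M.Cop) (hsep : M.Sep) (hmem : S_memtr) (x y : F.R)
    (hxy : F.b (F.cls x) = F.cls y) (h : y ≠ F.inv x ∨ F.b (F.cls x) = F.cls x) :
    ∃ X ∈ lieM (DZ Z) ℂ, (∀ c, Ct Z c → X * c = c * X) ∧
      ∀ z, X *ᵥ F.ev z = JJ F.inv F.jj y z • F.ev x + JJ F.inv F.jj x z • F.ev y := by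
  obtain ⟨S, hSd⟩ : ∃ S, S = SS F.O (F.ev x) (F.ev y) := ⟨_, rfl⟩
  have hSc : ∀ p, (F.ρ p).e * S = S * (F.ρ p).e := by
    intro p
    have e1 : S * (F.ρ p).e = ((vecMulVec (F.ev x) (F.ev y) + vecMulVec (F.ev y) (F.ev x)) *
        (F.ρ (F.b p)).eᵀ) * F.O := by
      rw [hSd]
      unfold SS
      rw [mul_assoc, F.Oρ, ← mul_assoc]
    have e2 : (F.ρ p).e * S = ((F.ρ p).e *
        (vecMulVec (F.ev x) (F.ev y) + vecMulVec (F.ev y) (F.ev x))) * F.O := by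
      rw [hSd]
      unfold SS
      rw [← mul_assoc]
    rw [e1, e2]
    congr 1
    rw [mul_add, add_mul, mul_vecMulVec,
      mul_vecMulVec, vecMulVec_mul, vecMulVec_mul, vecMul_transpose, vecMul_transpose,
      F.hv, F.hv, F.hv, F.hv, ← hxy]
    by_cases h1 : F.cls x = p
    · have h2 : F.b (F.cls x) = F.b p := by rw [h1]
      by_cases h3 : F.b (F.cls x) = p
      · have h4 : F.cls x = F.b p := by rw [← h3, F.Dt.bb]
        rw [if_pos h1, if_pos h2, if_pos h3, if_pos h4]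
      · have h4 : F.cls x ≠ F.b p := fun h => h3 (by rw [h, F.Dt.bb])
        rw [if_pos h1, if_pos h2, if_neg h3, if_neg h4, zero_vecMulVec, vecMulVec_zero]
    · have h2 : F.b (F.cls x) ≠ F.b p := fun h => h1 (by rw [← F.Dt.bb (F.cls x), h, F.Dt.bb])
      by_cases h3 : F.b (F.cls x) = p
      · have h4 : F.cls x = F.b p := by rw [← h3, F.Dt.bb]
        rw [if_neg h1, if_neg h2, if_pos h3, if_pos h4, zero_vecMulVec, vecMulVec_zero]
      · have h4 : F.cls x ≠ F.b p := fun h => h3 (by rw [h, F.Dt.bb])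
        rw [if_neg h1, if_neg h2, if_neg h3, if_neg h4, zero_vecMulVec, vecMulVec_zero,
          vecMulVec_zero, zero_vecMulVec]
  have hSsp : Sᵀ * (Om g ℂ * ∑ p, F.u p) + (Om g ℂ * ∑ p, F.u p) * S = 0 := by
    rw [hSd]
    exact SS_spOm F.OT _ _
  obtain ⟨X, hX1, hX2, hX3⟩ := M.morita F.Rp F.Dt hSc hSsp
  have hact : ∀ z, X *ᵥ F.ev z = JJ F.inv F.jj y z • F.ev x + JJ F.inv F.jj x z • F.ev y := by
    intro z
    have h1 : X *ᵥ F.ev z = S *ᵥ F.ev z := by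
      rw [← F.hev z, mulVec_mulVec, mulVec_mulVec, hX3]
    rw [h1, hSd, SS_mulVec, F.hJ', F.hJ']
  have htr : ∀ p, trace (X * (F.ρ p).e) = 0 := by
    intro p
    have h1 : trace (S * (F.ρ p).e) = (if F.cls x = p then JJ F.inv F.jj y x else 0) +
        (if F.cls y = p then JJ F.inv F.jj x y else 0) := by
      rw [hSd]
      unfold SS
      rw [trace_mul_comm, ← mul_assoc, mul_add, mul_vecMulVec, mul_vecMulVec, F.hv, F.hv, add_mul,
        vecMulVec_mul, vecMulVec_mul, trace_add, trace_vecMulVec, trace_vecMulVec]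
      congr 1
      · split_ifs with h2
        · rw [← F.hJ', dotProduct_comm, dotProduct_mulVec]
        · rw [zero_dotProduct]
      · split_ifs with h2
        · rw [← F.hJ', dotProduct_comm, dotProduct_mulVec]
        · rw [zero_dotProduct]
    rw [hX3, h1]
    rcases h with h | h
    · have h2 : JJ F.inv F.jj x y = 0 := by
        unfold JJ
        rw [if_neg h]
      have h3 : JJ F.inv F.jj y x = 0 := by rw [F.JJ_anti, h2, neg_zero]
      rw [h2, h3]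
      split_ifs <;> simp
    · rw [← hxy, h, F.JJ_anti y x]
      split_ifs <;> simp
  refine ⟨X, M.le_lieM (hmem g Z M hcop hsep X hX1 hX2 fun φ => ?_), hX1, hact⟩
  obtain ⟨p, hp⟩ := F.Rp.surj φ
  rw [← hp.trace fun c hc => (hX1 c hc).symm]
  exact htr p

theorem αρ (a : F.I) (z : F.R) (h : F.cls z ≠ F.r a) : F.α a *ᵥ F.ev z = 0 := by
  rw [← (F.hαβ a).ra, ← mulVec_mulVec, F.hv, if_neg h, mulVec_zero]

theorem βρ (a : F.I) (z : F.R) (h : F.cls z ≠ F.r a) (v : Fin g ⊕ Fin g → ℂ) :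
    (F.Co *ᵥ (F.β a *ᵥ v)) z = 0 := by
  rw [← (F.hαβ a).lb, ← mulVec_mulVec, F.Coρ0 h]

/-- The decomposition of the identity. -/
theorem total (v : Fin g ⊕ Fin g → ℂ) :
    v = ∑ a, ∑ z, (F.Co *ᵥ (F.β a *ᵥ v)) z • (F.α a *ᵥ F.ev z) := by
  conv_lhs => rw [← one_mulVec v, ← F.f3, sum_mulVec]
  refine Finset.sum_congr rfl fun a _ => ?_
  rw [← (F.hαβ a).ab, ← mulVec_mulVec]
  conv_lhs => rw [F.rec_sum (F.r a) (F.β a *ᵥ v) (by rw [mulVec_mulVec, (F.hαβ a).lb])]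
  rw [mulVec_sum]
  exact Finset.sum_congr rfl fun z _ => by rw [mulVec_smul]

/-- The pairing of the coordinates. -/
theorem pairing (p : F.P) (y v : Fin g ⊕ Fin g → ℂ) :
    ∑ z, (if F.cls z = p then F.jj z * ((F.Co *ᵥ y) z * (F.Co *ᵥ v) (F.inv z)) else 0) =
      ((F.ρ p).e *ᵥ y) ⬝ᵥ (F.O *ᵥ v) := by
  have h1 := F.rec_sum p ((F.ρ p).e *ᵥ y) (by rw [mulVec_mulVec, Pr.idem])
  conv_rhs => rw [h1]
  rw [sum_dotProduct]
  refine Finset.sum_congr rfl fun z _ => ?_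
  rw [smul_dotProduct, smul_eq_mul]
  by_cases h : F.cls z = p
  · rw [if_pos h, F.hCo (F.inv z), F.hinv, ← h, F.Coρ]
    have := F.hj0 z
    field_simp
  · rw [if_neg h, F.Coρ0 h, zero_mul]

end Fr

/-- **The expansion**. -/
theorem expw (hmem : S_memtr) (htor : S_tor) (hlab : S_lab) : S_expw := by
  classical
  intro g Z M hcop hsep κ _ _ c hc
  obtain ⟨F⟩ := exists_fr M hcop
  have hcard : ∀ p, F.b p = p → Fintype.card {x // F.cls x = p} = 2 := by
    intro p hp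
    have h1 := F.card_fib p
    have h2 := F.Dt.iso p
    rw [hp] at h2
    rw [M.trace_e, hr2_of M hcop _ ⟨_, _, h2⟩] at h1
    exact_mod_cast h1
  obtain ⟨Λ, η, ho, hst, hη1, hη2⟩ := hlab F.P F.R F.cls F.inv F.b F.Dt.bb F.hinv F.inv_ne F.hci
    hcard
  have hdimη : ∀ p, (Λ.dim p : ℂ) = trace (F.ρ p).e := by
    intro p
    rw [← F.card_fib p]
    have e1 : {x // F.cls x = p} ≃ Fin (Λ.dim p) :=
      { toFun := fun x => Fin.cast (by rw [hη1, x.2]) (η x.1).2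
        invFun := fun i => ⟨η.symm ⟨p, i⟩, by rw [← hη1, Equiv.apply_symm_apply]⟩
        left_inv := by
          rintro ⟨x, rfl⟩
          apply Subtype.ext
          apply η.injective
          rw [Equiv.apply_symm_apply]
          exact Pool.Agent.Q59.GC.letter_ext (hη1 x).symm rfl
        right_inv := by
          intro i
          apply Fin.ext
          change ((η (η.symm ⟨p, i⟩)).2 : ℕ) = i
          rw [Equiv.apply_symm_apply] }
    rw [Fintype.card_congr e1, Fintype.card_fin]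
  have hη3 : ∀ p (i : Fin (Λ.dim p)), F.cls (η.symm ⟨p, i⟩) = p := by
    intro p i
    rw [← hη1, Equiv.apply_symm_apply]
  have hJη : ∀ x y : Letter Λ, JJ Pool.Agent.Q59.GC.dual (fun z => F.jj (η.symm z)) x y =
      JJ F.inv F.jj (η.symm x) (η.symm y) := by
    intro x y
    unfold JJ
    have h1 : y = Pool.Agent.Q59.GC.dual x ↔ η.symm y = F.inv (η.symm x) := by
      rw [Equiv.symm_apply_eq, ← hη2, Equiv.apply_symm_apply]
    by_cases h : y = Pool.Agent.Q59.GC.dual x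
    · rw [if_pos h, if_pos (h1.1 h)]
    · rw [if_neg h, if_neg fun h' => h (h1.2 h')]
  have hdsymm : ∀ z, η.symm (Pool.Agent.Q59.GC.dual z) = F.inv (η.symm z) := by
    intro z
    rw [Equiv.symm_apply_eq, ← hη2, Equiv.apply_symm_apply]
  have hexp := Pool.Agent.Q180.D3.exp_mem (Fin g ⊕ Fin g) (DZ Z) 3 F.P Λ F.I F.r
    (fun a => Matrix.of fun z i => (F.Co *ᵥ (F.β a *ᵥ Pi.single i 1)) (η.symm z))
    (fun a z => F.α a *ᵥ F.ev (η.symm z)) (fun z => F.jj (η.symm z))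
    (fun p σ => trace ((DZ Z).map (σ : ℂ →+* ℂ) * (F.ρ p).e) / trace (F.ρ p).e)
    ho ?_ (fun z => F.hj0 _) ?_ ?_ ?_ ?_ ?_ ?_ κ c hc
  · refine Submodule.span_mono ?_ hexp
    rintro f ⟨l, p, q, ν, e, a, h1, h2, rfl⟩
    refine ⟨l, p, fun j => F.ρ (q j), fun j => Λ.dim (q j),
      fun j => Matrix.of fun i k => F.Co (η.symm ⟨q j, i⟩) k,
      fun j => Matrix.of fun k i => F.ev (η.symm ⟨q j, i⟩) k, e,
      fun j b => F.β (a (e (Sum.inl ⟨j, b⟩))),
      fun s => (F.β (a (e (Sum.inr (s, 0)))))ᵀ * ((F.ρ (ν s)).eᵀ * F.O) *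
        F.β (a (e (Sum.inr (s, 1)))), ?_, ?_, ?_, fun j b => (F.hαβ _).cb, ?_, ?_, ?_⟩
    · intro j
      ext i i'
      have h3 := F.hCoe (η.symm ⟨q j, i⟩) (η.symm ⟨q j, i'⟩)
      rw [Matrix.one_apply]
      have h4 : (η.symm ⟨q j, i⟩ = η.symm ⟨q j, i'⟩) ↔ i = i' := by
        rw [η.symm.injective.eq_iff]
        simp
      simp only [h4] at h3
      rw [← h3]
      rfl
    · intro j
      ext k k'
      have h3 := congrFun (F.rec_sum (q j) ((F.ρ (q j)).e *ᵥ Pi.single k' 1) (by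
        rw [mulVec_mulVec, Pr.idem])) k
      have h5 : ((F.ρ (q j)).e *ᵥ Pi.single k' 1) k = (F.ρ (q j)).e k k' := by
        rw [mulVec_single_one]
        rfl
      rw [← h5, h3, Finset.sum_apply, ← η.symm.sum_comp, Fintype.sum_sigma, Matrix.mul_apply,
        Finset.sum_eq_single (q j)]
      · refine Finset.sum_congr rfl fun i _ => ?_
        rw [Pi.smul_apply, smul_eq_mul]
        have h6 := F.Coρ (η.symm ⟨q j, i⟩) (Pi.single k' 1)
        rw [hη3] at h6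
        rw [h6, mulVec_single_one, mul_comm]
        rfl
      · intro p' _ hp'
        refine Finset.sum_eq_zero fun i _ => ?_
        rw [Pi.smul_apply, F.Coρ0 (by rw [hη3]; exact hp'), zero_smul]
      · intro h
        exact absurd (Finset.mem_univ _) h
    · intro j h3
      apply h1 j
      rw [hst]
      have h4 : Eqv (F.ρ (F.b (q j))) (M.bar (F.ρ (q j))) := ⟨_, _, F.Dt.iso (q j)⟩
      exact F.Rp.inj _ _ (h4.trans h3.symm)
    · intro s σ
      have hX : (DZ Z).map (σ : ℂ →+* ℂ) ∈ lieM (DZ Z) ℂ := map_mem_aut (D_mem _) (σ : ℂ →+* ℂ)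
      obtain ⟨X, hXd⟩ : ∃ X, X = (DZ Z).map (σ : ℂ →+* ℂ) := ⟨_, rfl⟩
      rw [← hXd] at hX
      change ((DZ Z).map (σ : ℂ →+* ℂ))ᵀ * ((F.β (a (e (Sum.inr (s, 0)))))ᵀ *
        ((F.ρ (ν s)).eᵀ * F.O) * F.β (a (e (Sum.inr (s, 1))))) +
        ((F.β (a (e (Sum.inr (s, 0)))))ᵀ * ((F.ρ (ν s)).eᵀ * F.O) *
        F.β (a (e (Sum.inr (s, 1))))) * (DZ Z).map (σ : ℂ →+* ℂ) = 0
      rw [← hXd]
      have c0 := M.comm_lieM (F.hαβ (a (e (Sum.inr (s, 0))))).cb hX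
      have c1 := M.comm_lieM (F.hαβ (a (e (Sum.inr (s, 1))))).cb hX
      have c2 := M.comm_lieM (F.ρ (ν s)).mem hX
      have c3 := F.hUX hX
      obtain ⟨β0, hβ0⟩ : ∃ β0, β0 = F.β (a (e (Sum.inr (s, 0)))) := ⟨_, rfl⟩
      obtain ⟨β1, hβ1⟩ : ∃ β1, β1 = F.β (a (e (Sum.inr (s, 1)))) := ⟨_, rfl⟩
      rw [← hβ0] at c0 ⊢
      rw [← hβ1] at c1 ⊢
      have d0 : Xᵀ * β0ᵀ = β0ᵀ * Xᵀ := by rw [← transpose_mul, ← transpose_mul, c0]
      have d2 : Xᵀ * (F.ρ (ν s)).eᵀ = (F.ρ (ν s)).eᵀ * Xᵀ := by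
        rw [← transpose_mul, ← transpose_mul, c2]
      calc Xᵀ * (β0ᵀ * ((F.ρ (ν s)).eᵀ * F.O) * β1) +
            β0ᵀ * ((F.ρ (ν s)).eᵀ * F.O) * β1 * X =
          (Xᵀ * β0ᵀ) * ((F.ρ (ν s)).eᵀ * F.O) * β1 +
            β0ᵀ * ((F.ρ (ν s)).eᵀ * F.O) * (β1 * X) := by noncomm_ring
      _ = β0ᵀ * (Xᵀ * (F.ρ (ν s)).eᵀ) * F.O * β1 +
            β0ᵀ * ((F.ρ (ν s)).eᵀ * F.O) * (X * β1) := by rw [d0, c1]; noncomm_ring
      _ = β0ᵀ * (F.ρ (ν s)).eᵀ * (Xᵀ * F.O + F.O * X) * β1 := by rw [d2]; noncomm_ring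
      _ = 0 := by rw [c3, mul_zero, zero_mul]
    · intro σ
      rw [← h2 σ]
      refine Finset.sum_congr rfl fun j _ => ?_
      rw [hdimη, mul_div_cancel₀ _ (M.trace_ne _)]
    · funext w
      congr 1
      · refine Finset.prod_congr rfl fun j _ => ?_
        congr 1
        ext b b'
        rw [Matrix.of_apply, Matrix.of_apply, Matrix.of_apply, mulVec_single_one]
        rfl
      · refine Finset.prod_congr rfl fun s _ => ?_
        have h3 := F.pairing (ν s) (F.β (a (e (Sum.inr (s, 0)))) *ᵥ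
          Pi.single (w (e (Sum.inr (s, 0)))) 1) (F.β (a (e (Sum.inr (s, 1)))) *ᵥ
          Pi.single (w (e (Sum.inr (s, 1)))) 1)
        have h4 : ((F.β (a (e (Sum.inr (s, 0)))))ᵀ * ((F.ρ (ν s)).eᵀ * F.O) *
            F.β (a (e (Sum.inr (s, 1))))) (w (e (Sum.inr (s, 0)))) (w (e (Sum.inr (s, 1)))) =
            ((F.ρ (ν s)).e *ᵥ (F.β (a (e (Sum.inr (s, 0)))) *ᵥ
              Pi.single (w (e (Sum.inr (s, 0)))) 1)) ⬝ᵥ (F.O *ᵥ (F.β (a (e (Sum.inr (s, 1)))) *ᵥ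
                Pi.single (w (e (Sum.inr (s, 1)))) 1)) := by
          obtain ⟨A, hA⟩ : ∃ A, A = (F.β (a (e (Sum.inr (s, 0)))))ᵀ * ((F.ρ (ν s)).eᵀ * F.O) *
            F.β (a (e (Sum.inr (s, 1)))) := ⟨_, rfl⟩
          rw [← hA]
          have h7 : A (w (e (Sum.inr (s, 0)))) (w (e (Sum.inr (s, 1)))) =
              (Pi.single (w (e (Sum.inr (s, 0)))) 1 : Fin g ⊕ Fin g → ℂ) ⬝ᵥ
                (A *ᵥ Pi.single (w (e (Sum.inr (s, 1)))) 1) := by
            rw [single_one_dotProduct, mulVec_single_one]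
            rfl
          rw [h7, hA, ← mulVec_mulVec, ← mulVec_mulVec, ← mulVec_mulVec]
          rw [dotProduct_mulVec _ (F.β (a (e (Sum.inr (s, 0)))))ᵀ, vecMul_transpose,
            dotProduct_mulVec _ (F.ρ (ν s)).eᵀ, vecMul_transpose]
        beta_reduce
        rw [h4, ← h3, ← η.symm.sum_comp, Fintype.sum_sigma, Finset.sum_eq_single (ν s)]
        · refine Finset.sum_congr rfl fun i _ => ?_
          rw [if_pos (hη3 _ _), Matrix.of_apply, Matrix.of_apply, hdsymm]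
        · intro p' _ hp'
          refine Finset.sum_eq_zero fun i _ => ?_
          rw [if_neg (by rw [hη3]; exact hp')]
        · intro h
          exact absurd (Finset.mem_univ _) h
  · intro z
    change F.jj (η.symm (Pool.Agent.Q59.GC.dual z)) = _
    rw [hdsymm, F.hjj]
  · intro i
    conv_lhs => rw [F.total (Pi.single i 1)]
    refine Finset.sum_congr rfl fun a _ => ?_
    rw [← η.symm.sum_comp]
    rfl
  · intro a z hz
    exact F.αρ a _ fun h => hz (by rw [← h, ← hη1, Equiv.apply_symm_apply])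
  · intro a z i hz
    exact F.βρ a _ (fun h => hz (by rw [← h, ← hη1, Equiv.apply_symm_apply])) _
  · intro x y hxy h
    have hx : F.cls (η.symm x) = x.1 := by rw [← hη1, Equiv.apply_symm_apply]
    have hy : F.cls (η.symm y) = y.1 := by rw [← hη1, Equiv.apply_symm_apply]
    rw [Pool.Agent.Q59.GC.dual_fst, hst] at hxy
    obtain ⟨X, hX, hX1, hX2⟩ := F.exists_root hcop hsep hmem (η.symm x) (η.symm y)
      (by rw [hx, hy, hxy]) (by
        rcases h with h | h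
        · left
          rw [← hdsymm]
          exact fun h' => h (η.symm.injective h')
        · right
          rw [hst] at h
          rw [hx, h])
    refine ⟨X, hX, fun a z => ?_⟩
    rw [mulVec_mulVec, hX1 _ (F.hαβ a).ca, ← mulVec_mulVec, hX2, mulVec_add, mulVec_smul,
      mulVec_smul, hJη, hJη]
  · intro σ
    obtain ⟨X, hX, hX1⟩ := htor g Z M hcop hsep σ
    refine ⟨X, M.le_lieM hX, fun a z => ?_⟩
    have hz : F.cls (η.symm z) = z.1 := by rw [← hη1, Equiv.apply_symm_apply]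
    have h1 : X * F.α a = F.α a * X := ((F.hαβ a).ca X hX).symm
    rw [mulVec_mulVec, h1, ← mulVec_mulVec]
    have h2 : X *ᵥ F.ev (η.symm z) = (trace ((DZ Z).map (σ : ℂ →+* ℂ) * (F.ρ z.1).e) /
        trace (F.ρ z.1).e) • F.ev (η.symm z) := by
      have h3 := F.hev (η.symm z)
      rw [hz] at h3
      conv_lhs => rw [← h3, mulVec_mulVec, hX1, smul_mulVec, h3]
    rw [h2, mulVec_smul]
  · intro p σ
    rw [hst]
    have h1 : Eqv (F.ρ (F.b p)) (M.bar (F.ρ p)) := ⟨_, _, F.Dt.iso p⟩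
    have hX : (DZ Z).map (σ : ℂ →+* ℂ) ∈ LZ Z := Dσ_mem_LZ σ
    have h2 := h1.trace (X := (DZ Z).map (σ : ℂ →+* ℂ)) fun c hc => hc _ hX
    have h3 := h1.trace (X := 1) fun c hc => by rw [mul_one, one_mul]
    rw [one_mul, one_mul] at h3
    have h4 : trace (M.bar (F.ρ p)).e = trace (F.ρ p).e := by
      rw [M.trace_e, M.trace_e, M.bar_bar, add_comm]
    change trace ((DZ Z).map (σ : ℂ →+* ℂ) * (F.ρ (F.b p)).e) / trace (F.ρ (F.b p)).e = _
    rw [h2, h3, h4, M.trace_bar hX, neg_div]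

end Pool.Agent.Q180.WT
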