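import Mathlib
import Pool.Agent.Q180.WT.Core
import Pool.Agent.Q176.D3.Close

/-!
# Abelian varieties isogenous to a product
-/

set_option linter.unusedSectionVars false
set_option linter.unusedVariables false

namespace Pool.Agent.Q180.WT

open Matrix Module Pool.Agent.H204R3.CM Pool.Agent.H204R3.SP Pool.Agent.W437.HC
  Pool.Agent.W437.HD Pool.Agent.W437.HP
open Pool.Agent.Q60.D3 (AV IsHom HasWeight ofZ Comm S_nf IsIsogenousToProd)

/-- The period matrix and the data. -/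
theorem exists_data (𝒟 : Set ℕ) (h1 : S_nf) (huzx : S_uzx) (huz1 : S_uz1) (A : AV)
    (hA : finrank ℂ A.T = 1 ∨
      ∃ p q : ℕ, p ≠ q ∧ p.Coprime q ∧ max p q ∈ 𝒟 ∧ HasSignature A p q) :
    ∃ (g : ℕ) (Z : Matrix (Fin g) (Fin g) ℂ) (e : A.H ≃ₗ[ℚ] (Fin g ⊕ Fin g → ℚ))
      (C : A.T ≃ₗ[ℂ] (Fin g → ℂ)), Zᵀ = Z ∧ (imM Z).PosDef ∧
      (∀ w, C (A.per w) = perOne Z (e w)) ∧
      ((∃ K : UZ Z, OkK 𝒟 K) ∨ (g = 1 ∧ ¬ Comm Z)) := by
  obtain ⟨g, Z, e, C, hZ, hpos, hC⟩ := h1 A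
  refine ⟨g, Z, e, C, hZ, hpos, hC, ?_⟩
  rcases hA with hA | ⟨p, q, hpq, hcop, hmax, hsig⟩
  · rw [C.finrank_eq, Module.finrank_fin_fun] at hA
    subst hA
    by_cases hcm : Comm Z
    · obtain ⟨K, hK1, hK2⟩ := huz1 Z hpos hcm
      refine Or.inl ⟨K, ?_, Or.inl rfl⟩
      rw [hK1, hK2]
      decide
    · exact Or.inr ⟨rfl, hcm⟩
  · obtain ⟨K, hK1, hK2⟩ := huzx A g Z e C hZ hpos hC p q hsig
    refine Or.inl ⟨K, ?_, Or.inr ⟨?_, ?_⟩⟩
    · rw [hK1, hK2]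
      exact hcop
    · rw [hK1, hK2]
      exact hpq
    · rw [hK1, hK2]
      exact hmax

theorem close (𝒟 : Set ℕ) (h1 : S_nf) (huzx : S_uzx) (huz1 : S_uz1)
    (hmain : ∀ (ι : Type) [Fintype ι] [DecidableEq ι] (g : ι → ℕ)
      (Z : ∀ i, Matrix (Fin (g i)) (Fin (g i)) ℂ), (∀ i, (Z i)ᵀ = Z i) →
      (∀ i, (imM (Z i)).PosDef) →
      (∀ i, (∃ K : UZ (Z i), OkK 𝒟 K) ∨ (g i = 1 ∧ ¬ Comm (Z i))) →
      ∀ (Y : AV) (a : Y.H ≃ₗ[ℚ] (Fin (NB g) ⊕ Fin (NB g) → ℚ)) (c : Y.T ≃ₗ[ℂ] (Fin (NB g) → ℂ)),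
      (∀ w, c (Y.per w) = perOne (bigD ℂ Z) (a w)) →
      ∀ (κ : Type) [Fintype κ] (f : Y.H [⋀^κ]→ₗ[ℚ] ℚ), IsHodge Y.per f → Gen 𝒟 Y κ f)
    (ι : Type) [Finite ι] (X : AV) (A : ι → AV) (hiso : IsIsogenousToProd X A)
    (hA : ∀ i, finrank ℂ (A i).T = 1 ∨
      ∃ p q : ℕ, p ≠ q ∧ p.Coprime q ∧ max p q ∈ 𝒟 ∧ HasSignature (A i) p q)
    (κ : Type) [Finite κ] (f : X.H [⋀^κ]→ₗ[ℚ] ℚ) (hf : IsHodge X.per f) : Gen 𝒟 X κ f := by
  classical
  obtain ⟨_⟩ := nonempty_fintype ι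
  obtain ⟨_⟩ := nonempty_fintype κ
  obtain ⟨p, hp, hbij⟩ := hiso
  choose g Z e C hZ hpos hC hdat using fun i => exists_data 𝒟 h1 huzx huz1 (A i) (hA i)
  have hfr : ∀ i, Module.finrank ℂ (A i).T = g i := fun i => by
    rw [(C i).finrank_eq, Module.finrank_fin_fun]
  choose Ct hCt using hp
  -- the homology
  let al : X.H →ₗ[ℚ] (Fin (NB g) ⊕ Fin (NB g) → ℚ) :=
    ∑ i, (Matrix.mulVecLin (pm g ℚ i)ᵀ) ∘ₗ (e i).toLinearMap ∘ₗ (p i)
  have hal : ∀ v, al v = ∑ i, (pm g ℚ i)ᵀ *ᵥ (e i (p i v)) := by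
    intro v
    simp only [al, LinearMap.sum_apply]
    rfl
  have hpa : ∀ i v, pm g ℚ i *ᵥ al v = e i (p i v) := by
    intro i v
    rw [hal, mulVec_sum, Finset.sum_eq_single i]
    · rw [mulVec_mulVec, pm_same, one_mulVec]
    · intro j _ hj
      rw [mulVec_mulVec, pm_off ℚ (Ne.symm hj), zero_mulVec]
    · intro h
      exact absurd (Finset.mem_univ _) h
  have hinj : Function.Injective al := by
    rw [injective_iff_map_eq_zero]
    intro v hv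
    apply hbij.1
    funext i
    have h3 := hpa i v
    rw [hv, mulVec_zero] at h3
    change p i v = p i 0
    rw [map_zero]
    exact (e i).injective (by rw [← h3, map_zero])
  have hsurj : Function.Surjective al := by
    intro y
    obtain ⟨v, hv⟩ := hbij.2 fun i => (e i).symm (pm g ℚ i *ᵥ y)
    refine ⟨v, ?_⟩
    rw [hal]
    have h3 : ∀ i, e i (p i v) = pm g ℚ i *ᵥ y := by
      intro i
      have h4 : p i v = (e i).symm (pm g ℚ i *ᵥ y) := congrFun hv i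
      rw [h4, LinearEquiv.apply_symm_apply]
    have h5 : ∑ i, (pm g ℚ i)ᵀ *ᵥ (e i (p i v)) = (∑ i, (pm g ℚ i)ᵀ * pm g ℚ i) *ᵥ y := by
      rw [sum_mulVec]
      refine Finset.sum_congr rfl fun i _ => ?_
      rw [h3, mulVec_mulVec]
    rw [h5, pm_tot, one_mulVec]
  let a : X.H ≃ₗ[ℚ] (Fin (NB g) ⊕ Fin (NB g) → ℚ) := LinearEquiv.ofBijective al ⟨hinj, hsurj⟩
  -- the tangent space
  let cl : X.T →ₗ[ℂ] (Fin (NB g) → ℂ) :=
    ∑ i, (Matrix.mulVecLin (qm g ℂ i)ᵀ) ∘ₗ (C i).toLinearMap ∘ₗ (Ct i)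
  have hcl : ∀ v, cl v = ∑ i, (qm g ℂ i)ᵀ *ᵥ (C i (Ct i v)) := by
    intro v
    simp only [cl, LinearMap.sum_apply]
    rfl
  have hper : ∀ w, cl (X.per w) = perOne (bigD ℂ Z) (a w) := by
    intro w
    rw [hcl]
    have h3 : ∀ i, C i (Ct i (X.per w)) = qm g ℂ i *ᵥ perOne (bigD ℂ Z) (a w) := by
      intro i
      rw [hCt, hC, ← Pool.Agent.Q176.D3.perOne_pm Z i (a w)]
      congr 1
      exact (hpa i w).symm
    have h4 : ∑ i, (qm g ℂ i)ᵀ *ᵥ (C i (Ct i (X.per w))) =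
        (∑ i, (qm g ℂ i)ᵀ * qm g ℂ i) *ᵥ perOne (bigD ℂ Z) (a w) := by
      rw [sum_mulVec]
      refine Finset.sum_congr rfl fun i _ => ?_
      rw [h3, mulVec_mulVec]
    rw [h4, qm_tot, one_mulVec]
  have hsurjT : LinearMap.range cl = ⊤ := by
    rw [eq_top_iff, ← (Pi.basisFun ℂ (Fin (NB g))).span_eq, Submodule.span_le]
    rintro _ ⟨j, rfl⟩
    refine ⟨X.per (a.symm (Pi.single (Sum.inl j) 1)), ?_⟩
    rw [hper, LinearEquiv.apply_symm_apply, Pi.basisFun_apply]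
    funext k
    change ((Pi.single (Sum.inl j) 1 : Fin (NB g) ⊕ Fin (NB g) → ℚ) (Sum.inl k) : ℂ) +
      ∑ l, bigD ℂ Z k l * (((Pi.single (Sum.inl j) 1 : Fin (NB g) ⊕ Fin (NB g) → ℚ)
        (Sum.inr l) : ℚ) : ℂ) = _
    have h3 : ∀ l, (Pi.single (Sum.inl j) 1 : Fin (NB g) ⊕ Fin (NB g) → ℚ) (Sum.inr l) = 0 := by
      intro l
      rw [Pi.single_apply, if_neg (by simp)]
    simp only [h3, Rat.cast_zero, mul_zero, Finset.sum_const_zero, add_zero, Pi.single_apply,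
      Sum.inl.injEq]
    split_ifs <;> simp
  have hdim : Module.finrank ℂ X.T = Module.finrank ℂ (Fin (NB g) → ℂ) := by
    have h3 := X.dim
    rw [a.finrank_eq, Module.finrank_fintype_fun_eq_card, Fintype.card_sum, Fintype.card_fin] at h3
    rw [Module.finrank_fin_fun]
    omega
  have hsT : Function.Surjective cl := LinearMap.range_eq_top.1 hsurjT
  have hiT : Function.Injective cl :=
    (LinearMap.injective_iff_surjective_of_finrank_eq_finrank hdim).2 hsT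
  let c : X.T ≃ₗ[ℂ] (Fin (NB g) → ℂ) := LinearEquiv.ofBijective cl ⟨hiT, hsT⟩
  exact hmain ι g Z hZ hpos hdat X a c hper κ f hf

end Pool.Agent.Q180.WT
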