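import Mathlib
import Pool.Agent.Q180.WT.Close
import Pool.Agent.Q180.WT.Expw
import Pool.Agent.Q121.WT.Gen1
import Pool.Agent.Q121.WT.Ins
import Pool.Agent.Q121.WT.Pol
import Pool.Agent.Q121.WT.Uzx
import Pool.Agent.Q121.WT.UzOne
import Pool.Agent.Q61.WT.Bal
import Pool.Agent.Q61.WT.Pow
import Pool.Agent.Q247.WT.Conv
import Pool.Agent.Q247.WT.Lab
import Pool.Agent.Q211.WT.Tor
import Pool.Agent.Q211.WT.Aln
import Pool.Agent.Q202.WT.Uza
import Pool.Agent.Q237.WT.Wt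
import Pool.Agent.Q237.WT.Weil
import Pool.Agent.Q60.D3.NF
import Pool.Agent.Q251.D3.Chi
import Pool.Agent.Q210.D3.L0

/-!
# The main theorem
-/

namespace Pool.Agent.Q180.WT

open Matrix Module Pool.Agent.H204R3.CM Pool.Agent.W437.HC Pool.Agent.W437.HD
open Pool.Agent.Q60.D3 (AV IsHom IsIsogenousToProd)

theorem bal : S_bal := by
  have hins : S_ins := Pool.Agent.Q121.WT.ins Pool.Agent.Q121.WT.good_alt
    Pool.Agent.Q121.WT.good_lin Pool.Agent.Q121.WT.good_reindex Pool.Agent.Q121.WT.good_mul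
    Pool.Agent.Q121.WT.good_pull
  exact Pool.Agent.Q61.WT.bal Pool.Agent.Q121.WT.good_alt
    Pool.Agent.Q121.WT.good_lin Pool.Agent.Q121.WT.good_reindex Pool.Agent.Q121.WT.good_mul
    Pool.Agent.Q121.WT.good_pull hins Pool.Agent.Q121.WT.pol' Pool.Agent.Q210.D3.L0
    Pool.Agent.Q210.D3.hodge Pool.Agent.Q237.WT.wt
    (Pool.Agent.Q237.WT.weil Pool.Agent.Q210.D3.L0 Pool.Agent.Q210.D3.hodge)
    Pool.Agent.Q61.WT.pow

/-- **The Hodge classes are generated by divisors and Weil classes.** -/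
theorem main (𝒟 : Set ℕ) (ι : Type) [Finite ι] (X : AV) (A : ι → AV)
    (hiso : IsIsogenousToProd X A)
    (hA : ∀ i, finrank ℂ (A i).T = 1 ∨
      ∃ p q : ℕ, p ≠ q ∧ p.Coprime q ∧ max p q ∈ 𝒟 ∧ HasSignature (A i) p q)
    (κ : Type) [Finite κ] (f : X.H [⋀^κ]→ₗ[ℚ] ℚ) : IsHodge X.per f ↔ Gen 𝒟 X κ f := by
  refine ⟨fun hf => ?_, fun hf => Pool.Agent.Q247.WT.conv 𝒟 X κ f hf inferInstance⟩
  have hexp : S_expw := expw Pool.Agent.Q211.WT.memtr Pool.Agent.Q211.WT.tor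
    Pool.Agent.Q247.WT.lab
  refine close 𝒟 Pool.Agent.Q60.D3.NF.nf Pool.Agent.Q121.WT.uzx Pool.Agent.Q121.WT.uz1 ?_ ι X A
    hiso hA κ f hf
  intro ι _ _ g Z hZ hpos hdata Y a c hc κ _ f hf
  exact core 𝒟 g Z hZ hpos Y a c Pool.Agent.Q121.WT.desc Pool.Agent.Q121.WT.good_alt
    Pool.Agent.Q121.WT.good_lin hexp (Pool.Agent.Q211.WT.aln Pool.Agent.Q202.WT.uza)
    Pool.Agent.Q202.WT.trz Pool.Agent.Q280.D3.wgt Pool.Agent.Q280.D3.ish
    Pool.Agent.Q251.D3.t_CHI Pool.Agent.Q202.WT.kon Pool.Agent.Q202.WT.uza bal hdata hc κ f hf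

end Pool.Agent.Q180.WT
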